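import Pool.Agent.Helper69.QAC.Main

/-!
# Sums of forms in separate variables, diagonal forms
-/

set_option autoImplicit false

namespace Pool.Agent.Helper69.QAC

open MvPolynomial

/-- A form of even degree `2 m` in more than `2 m ^ 2` variables becomes `c (a ^ 2 + b ^ 2) ^ m`
on a plane. -/
theorem plane {K : Type*} [Field K] [Algebra ℝ K] (hFG : (⊤ : IntermediateField ℝ K).FG)
    {t : K} (ht : IsTranscendenceBasis ℝ (fun _ : Unit => t)) {n m : ℕ} (hn : 2 * m ^ 2 < n)
    {f : MvPolynomial (Fin n) K} (hf : f.IsHomogeneous (2 * m)) :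
    ∃ (p q : Fin n → K) (c : K), (p ≠ 0 ∨ q ≠ 0) ∧
      ∀ a b : K, eval (fun s => a * p s - b * q s) f = c * (a ^ 2 + b ^ 2) ^ m := by
  classical
  obtain ⟨p, q, Q, hpq, hQ, hid⟩ := torus_field hFG ht (r := 1) 1 (2 * m) n (fun _ => f)
    (fun _ => 2 * m) (fun _ => le_rfl) (fun _ => hf) (by
      rw [Fin.sum_univ_one]
      have h1 := card_Epos_one (2 * m) (2 * m)
      have h2 : (2 * m + 1) / 2 = m := by omega
      rw [h2] at h1
      calc 2 * m * (Epos 1 (2 * m) (2 * m)).card ≤ 2 * m * m := Nat.mul_le_mul_left _ h1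
        _ = 2 * m ^ 2 := by ring
        _ < n := hn)
  have hQh : (Q 0).IsHomogeneous m := by
    rcases hQ 0 with h | h
    · rw [h]; exact isHomogeneous_zero _ _ _
    · have h2 := h.2
      rwa [Nat.mul_div_cancel_left m two_pos] at h2
  refine ⟨p 0, q 0, eval 1 (Q 0), hpq 0, fun a b => ?_⟩
  have h1 := hid 0 (fun _ => a) (fun _ => b)
  simp only [Fin.sum_univ_one] at h1
  rw [h1]
  have h2 := eval_mul_left hQh (a ^ 2 + b ^ 2) 1
  simp only [Pi.one_apply, mul_one] at h2
  rw [h2, mul_comm]

/-- Every diagonal form of degree `m` in `B` variables is isotropic. -/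
def DiagIso (K : Type*) [Field K] (m B : ℕ) : Prop :=
  ∀ c : Fin B → K, ∃ y : Fin B → K, y ≠ 0 ∧ ∑ j, c j * y j ^ m = 0

theorem block {K : Type*} [Field K] [Algebra ℝ K] (hFG : (⊤ : IntermediateField ℝ K).FG)
    {t : K} (ht : IsTranscendenceBasis ℝ (fun _ : Unit => t)) (hs : IsSumSq (-1 : K))
    {m B n : ℕ} (hB : DiagIso K m (B + 1)) (hm : 0 < m) (hn : 2 * m ^ 2 < n)
    (g : Fin B → MvPolynomial (Fin n) K) (hg : ∀ j, (g j).IsHomogeneous (2 * m)) (e : K) :
    ∃ (x : Fin B → Fin n → K) (z : K), (x ≠ 0 ∨ z ≠ 0) ∧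
      ∑ j, eval (x j) (g j) + e * z ^ (2 * m) = 0 := by
  classical
  have hpl := fun j => plane hFG ht hn (hg j)
  choose p q c hpq hid using hpl
  obtain ⟨y, hy0, hy⟩ := hB (Fin.snoc c e)
  rw [Fin.sum_univ_castSucc] at hy
  simp only [Fin.snoc_castSucc, Fin.snoc_last] at hy
  have h2 := char_ne_two K
  by_cases hz : y (Fin.last B) = 0
  · have hex : ∀ j : Fin B, ∃ a b : K, a ^ 2 + b ^ 2 = y j.castSucc ∧
        (y j.castSucc ≠ 0 → a • p j - b • q j ≠ 0) := by
      intro j
      by_cases hj : y j.castSucc = 0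
      · exact ⟨0, 0, by rw [hj]; ring, fun h => absurd hj h⟩
      · obtain ⟨a, b, hab, hne⟩ := lift_ne (k := 1) (p := fun _ => p j) (q := fun _ => q j) h2
          (fun _ => hpq j) (two_squares hFG ht hs) (y := fun _ => y j.castSucc) (by
            intro h
            exact hj (congrFun h 0))
        rw [Fin.sum_univ_one] at hne
        exact ⟨a 0, b 0, hab 0, fun _ => hne⟩
    choose a b hab hne using hex
    refine ⟨fun j s => a j * p j s - b j * q j s, 0, Or.inl ?_, ?_⟩
    · intro h
      apply hy0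
      funext i
      refine Fin.lastCases hz (fun j => ?_) i
      by_contra hj
      apply hne j hj
      funext s
      have := congrFun (congrFun h j) s
      simpa using this
    · simp only [hid, hab]
      rw [hz, zero_pow hm.ne', mul_zero, add_zero] at hy
      rw [hy, zero_pow (by omega : 2 * m ≠ 0), mul_zero, add_zero]
  · choose a b hab using fun j : Fin B =>
      two_squares hFG ht hs (y j.castSucc * y (Fin.last B))
    refine ⟨fun j s => a j * p j s - b j * q j s, y (Fin.last B), Or.inr hz, ?_⟩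
    simp only [hid, ← hab]
    have h3 : ∑ j : Fin B, c j * (y j.castSucc * y (Fin.last B)) ^ m =
        y (Fin.last B) ^ m * ∑ j : Fin B, c j * y j.castSucc ^ m := by
      rw [Finset.mul_sum]
      refine Finset.sum_congr rfl fun j _ => ?_
      rw [mul_pow]
      ring
    rw [h3]
    linear_combination y (Fin.last B) ^ m * hy

/-- Diagonal forms as polynomials. -/
theorem diag_homogeneous {K : Type*} [Field K] {n : ℕ} (c : Fin n → K) (d : ℕ) :
    (∑ i, C (c i) * X i ^ d : MvPolynomial (Fin n) K).IsHomogeneous d := by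
  refine IsHomogeneous.sum _ _ _ fun i _ => ?_
  have h1 := (isHomogeneous_C (Fin n) (c i)).mul ((isHomogeneous_X K i).pow d)
  rwa [zero_add, one_mul] at h1

theorem DiagIso.mono {K : Type*} [Field K] {m B B' : ℕ} (h : DiagIso K m B) (hB : B ≤ B')
    (hm : 0 < m) : DiagIso K m B' := by
  classical
  obtain ⟨e, rfl⟩ := Nat.exists_eq_add_of_le hB
  intro c
  obtain ⟨y, hy0, hy⟩ := h fun i => c (Fin.castAdd e i)
  refine ⟨Fin.addCases y (fun _ => 0), ?_, ?_⟩
  · intro h0
    apply hy0
    funext i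
    have := congrFun h0 (Fin.castAdd e i)
    simpa using this
  · rw [Fin.sum_univ_add]
    simp only [Fin.addCases_left, Fin.addCases_right, zero_pow hm.ne', mul_zero,
      Finset.sum_const_zero, add_zero]
    exact hy

theorem diag_step {K : Type*} [Field K] [Algebra ℝ K] (hFG : (⊤ : IntermediateField ℝ K).FG)
    {t : K} (ht : IsTranscendenceBasis ℝ (fun _ : Unit => t)) (hs : IsSumSq (-1 : K))
    {m B : ℕ} (hB : DiagIso K m (B + 1)) (hm : 0 < m) :
    DiagIso K (2 * m) ((2 * m ^ 2 + 1) * B + 1) := by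
  classical
  intro c
  let σ : Fin B × Fin (2 * m ^ 2 + 1) ≃ Fin ((2 * m ^ 2 + 1) * B) :=
    finProdFinEquiv.trans (finCongr (mul_comm _ _))
  obtain ⟨x, z, hxz, hzero⟩ := block hFG ht hs hB hm (n := 2 * m ^ 2 + 1) (Nat.lt_succ_self _)
    (fun j => ∑ i, C (c (σ (j, i)).castSucc) * X i ^ (2 * m))
    (fun j => diag_homogeneous _ _) (c (Fin.last _))
  refine ⟨Fin.snoc (fun i => x (σ.symm i).1 (σ.symm i).2) z, ?_, ?_⟩
  · intro h0
    rcases hxz with h | h
    · apply h
      funext j i
      have := congrFun h0 (σ (j, i)).castSucc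
      rw [Fin.snoc_castSucc, Equiv.symm_apply_apply] at this
      exact this
    · apply h
      have := congrFun h0 (Fin.last _)
      rw [Fin.snoc_last] at this
      exact this
  · rw [Fin.sum_univ_castSucc]
    simp only [Fin.snoc_castSucc, Fin.snoc_last]
    rw [← hzero]
    congr 1
    rw [← Equiv.sum_comp σ, Fintype.sum_prod_type]
    refine Finset.sum_congr rfl fun j _ => ?_
    simp only [map_sum, map_mul, map_pow, eval_C, eval_X, Equiv.symm_apply_apply]

/-- The bound for diagonal forms. -/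
def dbd (d : ℕ) : ℕ :=
  if h : d % 2 = 1 ∨ d ≤ 2 then d else (2 * (d / 2) ^ 2 + 1) * dbd (d / 2)
  decreasing_by omega

theorem diag_zero {K : Type*} [Field K] [Algebra ℝ K] (hFG : (⊤ : IntermediateField ℝ K).FG)
    {t : K} (ht : IsTranscendenceBasis ℝ (fun _ : Unit => t)) (hs : IsSumSq (-1 : K)) :
    ∀ d : ℕ, 0 < d → DiagIso K d (dbd d + 1) := by
  classical
  intro d
  induction d using Nat.strong_induction_on with
  | _ d ih =>
    intro hd
    rw [dbd]
    by_cases h1 : d % 2 = 1
    · rw [dif_pos (Or.inl h1)]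
      intro c
      obtain ⟨x, hx, h⟩ := odd_field hFG ht (r := 1) (d + 1) (fun _ => ∑ i, C (c i) * X i ^ d)
        (fun _ => d) (fun _ => Nat.odd_iff.2 h1) (fun _ => diag_homogeneous _ _) (by
          rw [Fin.sum_univ_one]
          exact Nat.lt_succ_self _)
      refine ⟨x, hx, ?_⟩
      have h2 := h 0
      simpa only [map_sum, map_mul, map_pow, eval_C, eval_X] using h2
    · by_cases h2 : d = 2
      · subst h2
        rw [dif_pos (Or.inr le_rfl)]
        intro c
        obtain ⟨y, hy0, hy⟩ := ternary hFG ht hs fun i j => if i = j then c i else 0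
        refine ⟨y, hy0, ?_⟩
        rw [← hy]
        refine Finset.sum_congr rfl fun i _ => ?_
        simp only [ite_mul, zero_mul]
        rw [Finset.sum_ite_eq, if_pos (Finset.mem_univ _)]
        ring
      · rw [dif_neg (by omega)]
        obtain ⟨m, rfl⟩ : ∃ m, d = 2 * m := ⟨d / 2, by omega⟩
        rw [Nat.mul_div_cancel_left m two_pos]
        exact diag_step hFG ht hs (ih m (by omega) (by omega)) (by omega)

end Pool.Agent.Helper69.QAC
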