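import Pool.Agent.Helper68.Zp.BU

/-!
# A Borsuk-Ulam theorem for the circle group
-/

set_option autoImplicit false

namespace Pool.Agent.Helper69.QAC

open Pool.Agent.Helper68.Zp

/-- Extension by zero. -/
noncomputable def ext0 (d m : ℕ) (u : Fin (d + 1) → ℂ) : Fin m → ℂ :=
  fun l => if h : (l : ℕ) < d + 1 then u ⟨l, h⟩ else 0

theorem continuous_ext0 (d m : ℕ) : Continuous (ext0 d m) := by
  refine continuous_pi fun l => ?_
  unfold ext0
  by_cases h : (l : ℕ) < d + 1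
  · simp only [h, dif_pos]
    exact continuous_apply _
  · simp only [h, dif_neg, not_false_iff]
    exact continuous_const

theorem ext0_smul (d m : ℕ) (c : ℂ) (u : Fin (d + 1) → ℂ) :
    ext0 d m (c • u) = c • ext0 d m u := by
  funext l
  by_cases h : (l : ℕ) < d + 1
  · simp only [ext0, Pi.smul_apply, dif_pos h]
  · simp only [ext0, Pi.smul_apply, dif_neg h, smul_zero]

theorem ext0_ne {d m : ℕ} (hdm : d < m) {u : Fin (d + 1) → ℂ} (hu : u ≠ 0) :
    ext0 d m u ≠ 0 := by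
  intro h
  apply hu
  funext l
  have h1 := congrFun h ⟨l, by omega⟩
  simp only [ext0, dif_pos l.2] at h1
  simpa using h1

theorem bu_fin {m d : ℕ} (hdm : d < m) (φ : Fin d → (Fin m → ℂ) → ℂ) (e : Fin d → ℤ)
    (he : ∀ k, e k ≠ 0) (hc : ∀ k, Continuous (φ k))
    (hφ : ∀ k (ζ : ℂ) u, ‖ζ‖ = 1 → φ k (ζ • u) = ζ ^ (e k) * φ k u) :
    ∃ u : Fin m → ℂ, u ≠ 0 ∧ ∀ k, φ k u = 0 := by
  obtain ⟨p, hp1, hp⟩ := Nat.exists_infinite_primes (2 * d + 3 + ∑ k, (e k).natAbs)
  have : Fact p.Prime := ⟨hp⟩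
  have hp0 : 0 < p := hp.pos
  set ω : ℂ := Complex.exp (((2 * Real.pi / p : ℝ) : ℂ) * Complex.I) with hω
  have hn : ‖ω‖ = 1 := norm_root hω
  have hωp : ω ^ p = 1 := root_pow hp0 hω
  have hω0 : ω ≠ 0 := by
    intro h
    rw [h] at hn
    simp at hn
  have hlt : ∀ k, (e k).natAbs < p := by
    intro k
    have h1 : (e k).natAbs ≤ ∑ k, (e k).natAbs :=
      Finset.single_le_sum (f := fun k => (e k).natAbs) (fun _ _ => Nat.zero_le _)
        (Finset.mem_univ k)
    omega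
  -- natural weights
  have hw : ∀ k, ∃ c : ℕ, (c : ℤ) ≡ e k [ZMOD p] := by
    intro k
    refine ⟨((e k) % p).toNat, ?_⟩
    have h0 : 0 ≤ (e k) % p := Int.emod_nonneg _ (by exact_mod_cast hp0.ne')
    rw [Int.toNat_of_nonneg h0]
    exact Int.mod_modEq _ _
  choose c hcm using hw
  have hdvd : ∀ k, ¬ p ∣ c k := by
    intro k h
    have h1 : (p : ℤ) ∣ e k := by
      have h2 : (p : ℤ) ∣ (c k : ℤ) := by exact_mod_cast h
      exact (Int.ModEq.dvd_iff (hcm k)).1 h2
    have h3 := Int.natAbs_dvd_natAbs.2 h1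
    rw [Int.natAbs_natCast] at h3
    have h4 := Nat.le_of_dvd (Int.natAbs_pos.2 (he k)) h3
    have := hlt k
    omega
  have hpow : ∀ k, ω ^ (c k) = ω ^ (e k) := by
    intro k
    obtain ⟨j, hj⟩ := (hcm k).symm.dvd
    have h1 : (c k : ℤ) = e k + p * j := by linarith
    rw [← zpow_natCast, h1, zpow_add₀ hω0, zpow_mul, zpow_natCast, hωp, one_zpow, mul_one]
  obtain ⟨x, hx0, hx1, hx2⟩ := borsuk_ulam_poles (p := p) (d := d) (by omega) hω hdvd
    (fun x => x.1 - ‖x.2‖) (fun k x => φ k (ext0 d m x.2))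
    (by fun_prop)
    (fun k => (hc k).comp ((continuous_ext0 d m).comp continuous_snd))
    (by intro s w; simp only [norm_smul, hn, one_mul])
    (by
      intro k s w
      show φ k (ext0 d m (ω • w)) = ω ^ c k * φ k (ext0 d m w)
      rw [ext0_smul, hφ k ω _ hn, hpow])
    (by simp) (by intro w hw; simpa using hw)
  refine ⟨ext0 d m x.2, ext0_ne hdm ?_, hx2⟩
  intro h
  apply hx0
  have h1 : x.1 = 0 := by
    have hx1' : x.1 - ‖x.2‖ = 0 := hx1
    rw [h, norm_zero, sub_zero] at hx1'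
    exact hx1'
  exact Prod.ext h1 h

/-- **Borsuk-Ulam theorem for the circle group**: fewer equations, all of them of nonzero weight,
than complex variables of weight one. -/
theorem bu_circle {ι κ : Type*} [Fintype ι] [Fintype κ] (hcard : Fintype.card κ < Fintype.card ι)
    (φ : κ → (ι → ℂ) → ℂ) (e : κ → ℤ) (he : ∀ k, e k ≠ 0) (hc : ∀ k, Continuous (φ k))
    (hφ : ∀ k (ζ : ℂ) u, ‖ζ‖ = 1 → φ k (ζ • u) = ζ ^ (e k) * φ k u) :
    ∃ u : ι → ℂ, u ≠ 0 ∧ ∀ k, φ k u = 0 := by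
  classical
  set a := Fintype.equivFin ι with ha
  set b := Fintype.equivFin κ with hb
  obtain ⟨u, hu, hz⟩ := bu_fin hcard (fun k (u : Fin (Fintype.card ι) → ℂ) => φ (b.symm k) (u ∘ a))
    (fun k => e (b.symm k)) (fun k => he _)
    (fun k => (hc _).comp (continuous_pi fun i => continuous_apply _))
    (fun k ζ u hζ => hφ _ ζ (u ∘ a) hζ)
  refine ⟨u ∘ a, ?_, fun k => by simpa using hz (b k)⟩
  intro h
  apply hu
  funext l
  have := congrFun h (a.symm l)
  simpa using this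

end Pool.Agent.Helper69.QAC
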