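import Mathlib

/-!
# Growth of products in a function field of one variable
-/

set_option autoImplicit false

namespace Pool.Agent.Helper69.QAC

open Polynomial IntermediateField

variable {k F : Type*} [Field k] [Field F] [Algebra k F]

/-- The span of `1` and `t`. -/
noncomputable def Tsp (k : Type*) {F : Type*} [Field k] [Field F] [Algebra k F] (t : F) :
    Submodule k F := Submodule.span k {1, t}

theorem Tsp_pow (t : F) (M : ℕ) :
    Tsp k t ^ M = Submodule.span k (Set.range fun j : Fin (M + 1) => t ^ (j : ℕ)) := by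
  induction M with
  | zero =>
    rw [pow_zero, Submodule.one_eq_span]
    congr 1
    ext x
    simp
  | succ M ih =>
    rw [pow_succ, ih, Tsp, Submodule.span_mul_span]
    apply le_antisymm
    · rw [Submodule.span_le]
      rintro _ ⟨_, ⟨j, rfl⟩, b, hb, rfl⟩
      simp only [Set.mem_insert_iff, Set.mem_singleton_iff] at hb
      rcases hb with rfl | rfl
      · exact Submodule.subset_span ⟨j.castSucc, by simp⟩
      · exact Submodule.subset_span ⟨j.succ, by simp [pow_succ]⟩
    · rw [Submodule.span_le]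
      rintro _ ⟨j, rfl⟩
      refine Fin.lastCases ?_ (fun j => ?_) j
      · refine Submodule.subset_span ⟨t ^ M, ⟨Fin.last M, by simp⟩, t, by simp, ?_⟩
        simp [pow_succ]
      · exact Submodule.subset_span ⟨t ^ (j : ℕ), ⟨j, rfl⟩, 1, by simp, by simp⟩

theorem aeval_mem_Tsp_pow (t : F) (p : k[X]) : aeval t p ∈ Tsp k t ^ p.natDegree := by
  rw [Tsp_pow, aeval_eq_sum_range]
  refine Submodule.sum_mem _ fun i hi => Submodule.smul_mem _ _ (Submodule.subset_span ?_)
  rw [Finset.mem_range] at hi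
  exact ⟨⟨i, hi⟩, rfl⟩

theorem one_mem_Tsp (t : F) : (1 : F) ∈ Tsp k t := Submodule.subset_span (by simp)

theorem Tsp_pow_mono (t : F) {m n : ℕ} (h : m ≤ n) : Tsp k t ^ m ≤ Tsp k t ^ n := by
  obtain ⟨c, rfl⟩ := Nat.exists_eq_add_of_le h
  rw [pow_add]
  intro x hx
  have h1 : (1 : F) ∈ Tsp k t ^ c := by
    have := Submodule.pow_mem_pow (Tsp k t) (one_mem_Tsp t) c
    rwa [one_pow] at this
  have := Submodule.mul_mem_mul hx h1
  rwa [mul_one] at this

/-- The common denominators. -/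
theorem denom_single (t : F) {μ : ℕ} (e : Module.Basis (Fin μ) (k⟮t⟯) F) (a : F) :
    ∃ δ : F, δ ≠ 0 ∧ ∃ c : ℕ, δ ∈ Tsp k t ^ c ∧
      δ * a ∈ Tsp k t ^ c * Submodule.span k (Set.range e) := by
  have h1 : ∀ i, ∃ p q : k[X], aeval t q ≠ 0 ∧ ((e.repr a i : k⟮t⟯) : F) = aeval t p / aeval t q := by
    intro i
    obtain ⟨p, q, h⟩ := (mem_adjoin_simple_iff k _).1 (e.repr a i).2
    by_cases hq : aeval t q = 0
    · refine ⟨0, 1, by simp, ?_⟩
      rw [h, hq]
      simp
    · exact ⟨p, q, hq, h⟩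
  choose p q hq hpq using h1
  have h2 : a = ∑ i, ((e.repr a i : k⟮t⟯) : F) * e i := by
    conv_lhs => rw [← e.sum_repr a]
    refine Finset.sum_congr rfl fun i _ => ?_
    rw [Algebra.smul_def]
    rfl
  set Q : k[X] := ∏ i, q i with hQ
  have h3 : ∀ i, ∃ r : k[X], aeval t Q * ((e.repr a i : k⟮t⟯) : F) = aeval t r := by
    intro i
    refine ⟨(∏ j ∈ Finset.univ.erase i, q j) * p i, ?_⟩
    have h4 : Q = (∏ j ∈ Finset.univ.erase i, q j) * q i := by
      rw [hQ, Finset.prod_erase_mul _ _ (Finset.mem_univ i)]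
    rw [h4, hpq i, map_mul, map_mul]
    have := hq i
    field_simp
  choose r hr using h3
  refine ⟨aeval t Q, ?_, Q.natDegree + ∑ i, (r i).natDegree, ?_, ?_⟩
  · rw [hQ, map_prod]
    exact Finset.prod_ne_zero_iff.2 fun i _ => hq i
  · exact Tsp_pow_mono t (Nat.le_add_right _ _) (aeval_mem_Tsp_pow t Q)
  · rw [h2, Finset.mul_sum]
    refine Submodule.sum_mem _ fun i _ => ?_
    rw [← mul_assoc, hr i]
    refine Submodule.mul_mem_mul (Tsp_pow_mono t ?_ (aeval_mem_Tsp_pow t (r i)))
      (Submodule.subset_span ⟨i, rfl⟩)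
    have : (r i).natDegree ≤ ∑ i, (r i).natDegree :=
      Finset.single_le_sum (f := fun i => (r i).natDegree) (fun _ _ => Nat.zero_le _)
        (Finset.mem_univ i)
    omega

theorem denom_finset (t : F) {μ : ℕ} (e : Module.Basis (Fin μ) (k⟮t⟯) F) (S : Finset F) :
    ∃ δ : F, δ ≠ 0 ∧ ∃ c : ℕ, δ ∈ Tsp k t ^ c ∧
      ∀ a ∈ S, δ * a ∈ Tsp k t ^ c * Submodule.span k (Set.range e) := by
  classical
  induction S using Finset.induction_on with
  | empty => exact ⟨1, one_ne_zero, 0, by simp, by simp⟩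
  | insert a S _ ih =>
    obtain ⟨δ, hδ, c, h1, h2⟩ := ih
    obtain ⟨δ', hδ', c', h1', h2'⟩ := denom_single t e a
    refine ⟨δ * δ', mul_ne_zero hδ hδ', c + c', ?_, ?_⟩
    · rw [pow_add]
      exact Submodule.mul_mem_mul h1 h1'
    · intro b hb
      rw [Finset.mem_insert] at hb
      rcases hb with rfl | hb
      · rw [mul_assoc, pow_add, mul_assoc]
        exact Submodule.mul_mem_mul h1 h2'
      · have h3 : δ * δ' * b = δ' * (δ * b) := by ring
        rw [h3, add_comm, pow_add, mul_assoc]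
        exact Submodule.mul_mem_mul h1' (h2 b hb)

theorem denom_fg (t : F) {μ : ℕ} (e : Module.Basis (Fin μ) (k⟮t⟯) F) {A : Submodule k F}
    (hA : A.FG) :
    ∃ δ : F, δ ≠ 0 ∧ ∃ c : ℕ,
      ∀ a ∈ A, δ * a ∈ Tsp k t ^ c * Submodule.span k (Set.range e) := by
  obtain ⟨S, hS⟩ := hA
  obtain ⟨δ, hδ, c, -, h⟩ := denom_finset t e S
  refine ⟨δ, hδ, c, fun a ha => ?_⟩
  rw [← hS] at ha
  induction ha using Submodule.span_induction with
  | mem x hx => exact h x hx
  | zero => simp
  | add x y _ _ hx hy => rw [mul_add]; exact Submodule.add_mem _ hx hy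
  | smul r x _ hx => rw [mul_smul_comm]; exact Submodule.smul_mem _ _ hx

theorem finrank_V {t : F} (ht : Transcendental k t) {μ : ℕ} (e : Module.Basis (Fin μ) (k⟮t⟯) F)
    (M : ℕ) :
    Module.finrank k ↥(Tsp k t ^ M * Submodule.span k (Set.range e)) = μ * (M + 1) := by
  have h1 : LinearIndependent k (fun j : Fin (M + 1) =>
      (⟨t, mem_adjoin_simple_self k t⟩ : k⟮t⟯) ^ (j : ℕ)) := by
    have h2 : LinearIndependent k (fun j : Fin (M + 1) => (X : k[X]) ^ (j : ℕ)) := by
      have := (basisMonomials k).linearIndependent.comp (fun j : Fin (M + 1) => (j : ℕ))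
        Fin.val_injective
      have h : (fun j : Fin (M + 1) => (X : k[X]) ^ (j : ℕ)) =
          (basisMonomials k) ∘ (fun j : Fin (M + 1) => (j : ℕ)) := by
        funext j
        simp [X_pow_eq_monomial]
      rw [h]
      exact this
    have h3 : Function.Injective (aeval t : k[X] →ₐ[k] F) :=
      transcendental_iff_injective.1 ht
    have h4 := h2.map' (aeval t : k[X] →ₐ[k] F).toLinearMap
      (LinearMap.ker_eq_bot.2 h3)
    refine LinearIndependent.of_comp (k⟮t⟯).val.toLinearMap ?_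
    have h : ((k⟮t⟯).val.toLinearMap ∘ fun j : Fin (M + 1) =>
        (⟨t, mem_adjoin_simple_self k t⟩ : k⟮t⟯) ^ (j : ℕ)) =
        (aeval t : k[X] →ₐ[k] F).toLinearMap ∘ fun j : Fin (M + 1) => (X : k[X]) ^ (j : ℕ) := by
      funext j
      simp
    rw [h]
    exact h4
  have h5 := linearIndependent_smul h1 e.linearIndependent
  have h6 : Tsp k t ^ M * Submodule.span k (Set.range e) =
      Submodule.span k (Set.range fun p : Fin (M + 1) × Fin μ =>
        (⟨t, mem_adjoin_simple_self k t⟩ : k⟮t⟯) ^ (p.1 : ℕ) • e p.2) := by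
    rw [Tsp_pow, Submodule.span_mul_span]
    congr 1
    ext x
    constructor
    · rintro ⟨_, ⟨j, rfl⟩, _, ⟨i, rfl⟩, rfl⟩
      exact ⟨(j, i), by simp [Algebra.smul_def]⟩
    · rintro ⟨⟨j, i⟩, rfl⟩
      exact ⟨_, ⟨j, rfl⟩, _, ⟨i, rfl⟩, by simp [Algebra.smul_def]⟩
  rw [h6, finrank_span_eq_card h5]
  simp [mul_comm]

/-- **Growth.** -/
theorem growth (hFG : (⊤ : IntermediateField k F).FG) {t : F}
    (ht : IsTranscendenceBasis k (fun _ : Unit => t)) :
    ∃ (μ : ℕ) (V : ℕ → Submodule k F), 0 < μ ∧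
      (∀ M, (V M).FG ∧ Module.finrank k ↥(V M) = μ * (M + 1)) ∧
      ∀ A : Submodule k F, A.FG → ∀ d : ℕ, ∃ c : ℕ, ∀ M,
        Module.finrank k ↥(A * V M ^ d) ≤ μ * (d * M + c) := by
  have hess : Algebra.EssFiniteType k F := fg_top_iff.1 hFG
  have h0 : Set.range (fun _ : Unit => t) = {t} := by simp
  have halg : Algebra.IsAlgebraic (k⟮t⟯) F := by
    have := ht.isAlgebraic_field
    rwa [h0] at this
  have htr : Transcendental k t := by
    have := ht.1.transcendental ()
    exact this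
  have hess' : Algebra.EssFiniteType (k⟮t⟯) F := Algebra.EssFiniteType.of_comp k (k⟮t⟯) F
  have hfin : Module.Finite (k⟮t⟯) F := Algebra.finite_of_essFiniteType_of_isAlgebraic
  set μ := Module.finrank (k⟮t⟯) F with hμ
  have hμ0 : 0 < μ := Module.finrank_pos
  set e : Module.Basis (Fin μ) (k⟮t⟯) F := Module.finBasis (k⟮t⟯) F with he
  have hEfg : (Submodule.span k (Set.range e)).FG := Submodule.fg_span (Set.finite_range _)
  have hTfg : (Tsp k t).FG := Submodule.fg_span (by simp)
  refine ⟨μ, fun M => Tsp k t ^ M * Submodule.span k (Set.range e), hμ0, fun M =>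
    ⟨(hTfg.pow M).mul hEfg, finrank_V htr e M⟩, fun A hA d => ?_⟩
  obtain ⟨δ, hδ, c, hc⟩ := denom_fg t e (A := A * Submodule.span k (Set.range e) ^ d)
    (hA.mul (hEfg.pow d))
  refine ⟨c + 1, fun M => ?_⟩
  have h1 : A * (Tsp k t ^ M * Submodule.span k (Set.range e)) ^ d ≤
      (Tsp k t ^ (d * M + c) * Submodule.span k (Set.range e)).map
        (LinearMap.mulLeft k δ⁻¹) := by
    have h2 : A * (Tsp k t ^ M * Submodule.span k (Set.range e)) ^ d =
        Tsp k t ^ (d * M) * (A * Submodule.span k (Set.range e) ^ d) := by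
      rw [mul_pow, ← pow_mul, mul_comm d M]
      ring
    rw [h2]
    intro x hx
    refine ⟨δ * x, ?_, by simp [hδ]⟩
    refine Submodule.mul_induction_on (C := fun x => δ * x ∈ _) hx ?_ ?_
    · intro m hm n hn
      have h3 : δ * (m * n) = m * (δ * n) := by ring
      rw [h3, pow_add, mul_assoc]
      exact Submodule.mul_mem_mul hm (hc n hn)
    · intro x y hx hy
      rw [mul_add]
      exact Submodule.add_mem _ hx hy
  have hfin1 : Module.Finite k ↥(Tsp k t ^ (d * M + c) * Submodule.span k (Set.range e)) :=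
    Module.Finite.iff_fg.2 ((hTfg.pow _).mul hEfg)
  calc Module.finrank k ↥(A * (Tsp k t ^ M * Submodule.span k (Set.range e)) ^ d)
      ≤ Module.finrank k ↥((Tsp k t ^ (d * M + c) * Submodule.span k (Set.range e)).map
        (LinearMap.mulLeft k δ⁻¹)) := Submodule.finrank_mono h1
    _ ≤ Module.finrank k ↥(Tsp k t ^ (d * M + c) * Submodule.span k (Set.range e)) :=
        Submodule.finrank_map_le _ _
    _ = μ * (d * M + (c + 1)) := finrank_V htr e _

end Pool.Agent.Helper69.QAC
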