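import Pool.Agent.Helper69.QAC.Torus
import Pool.Agent.Helper69.QAC.Growth

/-!
# Forms over a function field of one real variable: torus invariance
-/

set_option autoImplicit false

namespace Pool.Agent.Helper69.QAC

open MvPolynomial

/-! ## Polynomials with coefficients in a subspace -/

/-- All coefficients lie in `U`. -/
def PolyIn {K σ : Type*} [Field K] [Algebra ℝ K] (U : Submodule ℝ K) (Φ : MvPolynomial σ K) :
    Prop := ∀ μ, coeff μ Φ ∈ U

theorem PolyIn.mul {K σ : Type*} [Field K] [Algebra ℝ K] {U U' : Submodule ℝ K}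
    {Φ Φ' : MvPolynomial σ K} (h : PolyIn U Φ) (h' : PolyIn U' Φ') : PolyIn (U * U') (Φ * Φ') := by
  classical
  intro μ
  rw [coeff_mul]
  exact Submodule.sum_mem _ fun x _ => Submodule.mul_mem_mul (h _) (h' _)

theorem PolyIn.one {K σ : Type*} [Field K] [Algebra ℝ K] :
    PolyIn (1 : Submodule ℝ K) (1 : MvPolynomial σ K) := by
  classical
  intro μ
  rw [coeff_one]
  split_ifs
  · exact Submodule.one_le.1 le_rfl
  · exact Submodule.zero_mem _

theorem PolyIn.sum {K σ J : Type*} [Field K] [Algebra ℝ K] {U : Submodule ℝ K} (s : Finset J)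
    {Φ : J → MvPolynomial σ K} (h : ∀ j ∈ s, PolyIn U (Φ j)) : PolyIn U (∑ j ∈ s, Φ j) := by
  intro μ
  rw [coeff_sum]
  exact Submodule.sum_mem _ fun j hj => h j hj μ

theorem PolyIn.pow {K σ : Type*} [Field K] [Algebra ℝ K] {U : Submodule ℝ K}
    {Φ : MvPolynomial σ K} (h : PolyIn U Φ) (n : ℕ) : PolyIn (U ^ n) (Φ ^ n) := by
  induction n with
  | zero => rw [pow_zero, pow_zero]; exact PolyIn.one
  | succ n ih => rw [pow_succ, pow_succ]; exact ih.mul h

theorem PolyIn.prod {K σ J : Type*} [Field K] [Algebra ℝ K] (s : Finset J)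
    {U : J → Submodule ℝ K} {Φ : J → MvPolynomial σ K} (h : ∀ j ∈ s, PolyIn (U j) (Φ j)) :
    PolyIn (∏ j ∈ s, U j) (∏ j ∈ s, Φ j) := by
  classical
  induction s using Finset.induction_on with
  | empty => rw [Finset.prod_empty, Finset.prod_empty]; exact PolyIn.one
  | insert a s ha ih =>
    rw [Finset.prod_insert ha, Finset.prod_insert ha]
    exact (h a (Finset.mem_insert_self _ _)).mul
      (ih fun j hj => h j (Finset.mem_insert_of_mem hj))

theorem polyIn_C_mul_X {K σ : Type*} [Field K] [Algebra ℝ K] {U : Submodule ℝ K} {c : K}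
    (hc : c ∈ U) (v : σ) : PolyIn U (C c * X v) := by
  classical
  intro μ
  rw [coeff_C_mul, coeff_X]
  split_ifs
  · simpa using hc
  · simp

theorem polyIn_C {K σ : Type*} [Field K] [Algebra ℝ K] {U : Submodule ℝ K} {c : K}
    (hc : c ∈ U) : PolyIn U (C c : MvPolynomial σ K) := by
  classical
  intro μ
  rw [coeff_C]
  split_ifs
  · exact hc
  · exact Submodule.zero_mem _

/-- Decomposition with respect to a spanning family. -/
theorem PolyIn.decomp {K σ : Type*} [Field K] [Algebra ℝ K] {U : Submodule ℝ K} {h : ℕ}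
    (g : Module.Basis (Fin h) ℝ ↥U) {Φ : MvPolynomial σ K} (hΦ : PolyIn U Φ) {d : ℕ}
    (hd : Φ.IsHomogeneous d) :
    ∃ P : Fin h → MvPolynomial σ ℝ, (∀ i, (P i).IsHomogeneous d) ∧
      Φ = ∑ i, C ((g i : ↥U) : K) * map (algebraMap ℝ K) (P i) := by
  classical
  refine ⟨fun i => ∑ μ ∈ Φ.support, monomial μ (g.repr ⟨coeff μ Φ, hΦ μ⟩ i), fun i => ?_, ?_⟩
  · refine IsHomogeneous.sum _ _ _ fun μ hμ => isHomogeneous_monomial _ ?_
    by_contra hne
    exact (mem_support_iff.1 hμ) (hd.coeff_eq_zero hne)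
  · have h1 : ∀ μ, coeff μ Φ = ∑ i, ((g i : ↥U) : K) *
        algebraMap ℝ K (g.repr ⟨coeff μ Φ, hΦ μ⟩ i) := by
      intro μ
      have h2 := congrArg (Subtype.val) (g.sum_repr ⟨coeff μ Φ, hΦ μ⟩)
      simp only [Submodule.coe_sum, Submodule.coe_smul] at h2
      refine h2.symm.trans (Finset.sum_congr rfl fun i _ => ?_)
      rw [Algebra.smul_def, mul_comm]
    conv_lhs => rw [← support_sum_monomial_coeff Φ]
    simp only [map_sum, map_monomial, Finset.mul_sum, C_mul_monomial]
    rw [Finset.sum_comm]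
    refine Finset.sum_congr rfl fun μ _ => ?_
    rw [← map_sum, ← h1 μ]

/-! ## Substitution -/

theorem polyIn_subst {K : Type*} [Field K] [Algebra ℝ K] {n m d : ℕ}
    {f : MvPolynomial (Fin n) K} (hf : f.IsHomogeneous d) {V : Submodule ℝ K} {b : Fin m → K}
    (hb : ∀ l, b l ∈ V) :
    PolyIn (Submodule.span ℝ (Set.range fun s : f.support => coeff (s : Fin n →₀ ℕ) f) * V ^ d)
      (bind₁ (fun s => ∑ l, C (b l) * X (s, l) : Fin n → MvPolynomial (Fin n × Fin m) K) f) := by
  classical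
  rw [← aeval_eq_bind₁, aeval_def, eval₂_eq']
  refine PolyIn.sum _ fun s hs => ?_
  refine PolyIn.mul (polyIn_C (Submodule.subset_span ⟨⟨s, hs⟩, rfl⟩)) ?_
  have h1 : ∑ v, s v = d := by
    by_contra hne
    exact (mem_support_iff.1 hs) (hf.coeff_eq_zero (by rwa [Finsupp.degree_eq_sum]))
  have h2 : V ^ d = ∏ v : Fin n, V ^ s v := by
    rw [Finset.prod_pow_eq_pow_sum, h1]
  rw [h2]
  refine PolyIn.prod _ fun v _ => PolyIn.pow (PolyIn.sum _ fun l _ => polyIn_C_mul_X (hb l) _) _

theorem homogeneous_subst {K : Type*} [Field K] {n m d : ℕ}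
    {f : MvPolynomial (Fin n) K} (hf : f.IsHomogeneous d) (b : Fin m → K) :
    (bind₁ (fun s => ∑ l, C (b l) * X (s, l) : Fin n → MvPolynomial (Fin n × Fin m) K)
      f).IsHomogeneous d := by
  rw [← aeval_eq_bind₁]
  have := hf.aeval (fun s => ∑ l, C (b l) * X (s, l) : Fin n → MvPolynomial (Fin n × Fin m) K)
    (n := 1) (fun s => IsHomogeneous.sum _ _ _ fun l _ => isHomogeneous_C_mul_X _ _)
  rwa [one_mul] at this

/-- The identity over `ℝ` gives the identity over `K`. -/
theorem transfer {K : Type*} [Field K] [Algebra ℝ K] {ι : Type*} {k : ℕ}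
    {P : MvPolynomial ι ℝ} {Q : MvPolynomial (Fin k) ℝ} {x y : Fin k → ι → ℝ}
    (h : ∀ a b : Fin k → ℝ, eval (fun l => ∑ j, (a j * x j l - b j * y j l)) P =
      eval (fun j => a j ^ 2 + b j ^ 2) Q) (a b : Fin k → K) :
    aeval (fun l => ∑ j, (a j * algebraMap ℝ K (x j l) - b j * algebraMap ℝ K (y j l))) P =
      aeval (fun j => a j ^ 2 + b j ^ 2) Q := by
  have h1 : bind₁ (fun l => ∑ j, (X (Sum.inl j) * C (x j l) - X (Sum.inr j) * C (y j l)) :
      ι → MvPolynomial (Fin k ⊕ Fin k) ℝ) P =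
      bind₁ (fun j => X (Sum.inl j) ^ 2 + X (Sum.inr j) ^ 2 :
        Fin k → MvPolynomial (Fin k ⊕ Fin k) ℝ) Q := by
    refine MvPolynomial.funext fun v => ?_
    have h2 := h (fun j => v (Sum.inl j)) (fun j => v (Sum.inr j))
    simp only [← aeval_eq_eval] at h2 ⊢
    rw [aeval_bind₁, aeval_bind₁]
    simpa using h2
  have h3 := congrArg (aeval (Sum.elim a b : Fin k ⊕ Fin k → K)) h1
  rw [aeval_bind₁, aeval_bind₁] at h3
  simpa using h3

/-- **Torus invariance over a function field.** -/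
theorem torus_field {K : Type*} [Field K] [Algebra ℝ K] (hFG : (⊤ : IntermediateField ℝ K).FG)
    {t : K} (ht : IsTranscendenceBasis ℝ (fun _ : Unit => t)) {r : ℕ} (k D n : ℕ)
    (f : Fin r → MvPolynomial (Fin n) K) (d : Fin r → ℕ) (hd : ∀ i, d i ≤ D)
    (hf : ∀ i, (f i).IsHomogeneous (d i)) (hn : ∑ i, d i * (Epos k (d i) D).card < n) :
    ∃ (p q : Fin k → Fin n → K) (Q : Fin r → MvPolynomial (Fin k) K),
      (∀ j, p j ≠ 0 ∨ q j ≠ 0) ∧ (∀ i, Q i = 0 ∨ 2 ∣ d i ∧ (Q i).IsHomogeneous (d i / 2)) ∧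
      ∀ i (a b : Fin k → K), eval (fun s => ∑ j, (a j * p j s - b j * q j s)) (f i) =
        eval (fun j => a j ^ 2 + b j ^ 2) (Q i) := by
  classical
  obtain ⟨μ, V, hμ, hV, hgr⟩ := growth hFG ht
  set A : Fin r → Submodule ℝ K := fun i =>
    Submodule.span ℝ (Set.range fun s : (f i).support => coeff (s : Fin n →₀ ℕ) (f i)) with hA
  have hAfg : ∀ i, (A i).FG := fun i => Submodule.fg_span (Set.finite_range _)
  have hc := fun i => hgr (A i) (hAfg i) (d i)
  choose c hc using hc
  set E : Fin r → ℕ := fun i => (Epos k (d i) D).card with hE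
  set M := ∑ i, E i * c i with hM
  set m := μ * (M + 1) with hm
  have hVfin : Module.Finite ℝ ↥(V M) := Module.Finite.iff_fg.2 (hV M).1
  set b : Module.Basis (Fin m) ℝ ↥(V M) := Module.finBasisOfFinrankEq ℝ _ (hV M).2 with hb
  set U : Fin r → Submodule ℝ K := fun i => A i * V M ^ d i with hU
  have hUfin : ∀ i, Module.Finite ℝ ↥(U i) := fun i =>
    Module.Finite.iff_fg.2 ((hAfg i).mul ((hV M).1.pow _))
  set h : Fin r → ℕ := fun i => Module.finrank ℝ ↥(U i) with hh
  set g : ∀ i, Module.Basis (Fin (h i)) ℝ ↥(U i) := fun i => Module.finBasis ℝ ↥(U i) with hg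
  set Φ : Fin r → MvPolynomial (Fin n × Fin m) K := fun i =>
    bind₁ (fun s => ∑ l, C ((b l : ↥(V M)) : K) * X (s, l)) (f i) with hΦ
  have hdec := fun i => (polyIn_subst (hf i) (V := V M) (b := fun l => ((b l : ↥(V M)) : K))
    (fun l => (b l).2)).decomp (g i) (homogeneous_subst (hf i) _)
  choose P hP1 hP2 using hdec
  have hcard : ∑ x : (Σ i, Fin (h i)), (Epos k (d x.1) D).card < Fintype.card (Fin n × Fin m) := by
    rw [Fintype.sum_sigma]
    simp only [Finset.sum_const, Finset.card_univ, Fintype.card_fin, smul_eq_mul, Fintype.card_prod]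
    have h1 : ∀ i, h i * E i ≤ μ * (d i * E i * M + E i * c i) := by
      intro i
      calc h i * E i ≤ (μ * (d i * M + c i)) * E i := Nat.mul_le_mul_right _ (hc i M)
        _ = μ * (d i * E i * M + E i * c i) := by ring
    calc ∑ i, h i * E i ≤ ∑ i, μ * (d i * E i * M + E i * c i) :=
          Finset.sum_le_sum fun i _ => h1 i
      _ = μ * ((∑ i, d i * E i) * M + M) := by
          rw [← Finset.mul_sum, Finset.sum_add_distrib, ← Finset.sum_mul]
      _ ≤ μ * (n * M) := by
          refine Nat.mul_le_mul_left _ ?_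
          have : ∑ i, d i * E i + 1 ≤ n := hn
          calc (∑ i, d i * E i) * M + M = (∑ i, d i * E i + 1) * M := by ring
            _ ≤ n * M := Nat.mul_le_mul_right _ this
      _ < μ * (n * (M + 1)) := by
          refine Nat.mul_lt_mul_of_pos_left ?_ hμ
          have : 0 < n := by omega
          exact Nat.mul_lt_mul_of_pos_left (Nat.lt_succ_self _) this
      _ = n * m := by rw [hm]; ring
  obtain ⟨w, Q, hw, hQ, hid⟩ := torus_real k D (fun x : (Σ i, Fin (h i)) => P x.1 x.2)
    (fun x => d x.1) (fun x => hd _) (fun x => hP1 _ _) hcard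
  refine ⟨fun j s => ∑ l, (w j (s, l)).re • ((b l : ↥(V M)) : K),
    fun j s => ∑ l, (w j (s, l)).im • ((b l : ↥(V M)) : K),
    fun i => ∑ l, C ((g i l : ↥(U i)) : K) * map (algebraMap ℝ K) (Q ⟨i, l⟩), ?_, ?_, ?_⟩
  · intro j
    by_contra hcon
    push Not at hcon
    apply hw j
    have hli : LinearIndependent ℝ fun l => ((b l : ↥(V M)) : K) :=
      b.linearIndependent.map' (V M).subtype (Submodule.ker_subtype _)
    rw [Fintype.linearIndependent_iff] at hli
    funext ⟨s, l⟩
    have h1 := hli _ (congrFun hcon.1 s) l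
    have h2 := hli _ (congrFun hcon.2 s) l
    exact Complex.ext h1 h2
  · intro i
    by_cases hdiv : 2 ∣ d i
    · right
      refine ⟨hdiv, IsHomogeneous.sum _ _ _ fun l _ => ?_⟩
      have h1 : (Q ⟨i, l⟩).IsHomogeneous (d i / 2) := by
        rcases hQ ⟨i, l⟩ with h0 | h0
        · rw [h0]; exact isHomogeneous_zero _ _ _
        · exact h0.2
      have h2 := (isHomogeneous_C (Fin k) ((g i l : ↥(U i)) : K)).mul (h1.map (algebraMap ℝ K))
      rwa [zero_add] at h2
    · left
      refine Finset.sum_eq_zero fun l _ => ?_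
      rcases hQ ⟨i, l⟩ with h0 | h0
      · rw [h0, map_zero, mul_zero]
      · exact absurd h0.1 hdiv
  · intro i α β
    have h1 := congrArg (eval fun x : Fin n × Fin m => ∑ j, (α j * algebraMap ℝ K (w j x).re -
      β j * algebraMap ℝ K (w j x).im)) (hP2 i)
    have h2 : eval (fun x : Fin n × Fin m => ∑ j, (α j * algebraMap ℝ K (w j x).re -
        β j * algebraMap ℝ K (w j x).im))
        (bind₁ (fun s => ∑ l, C ((b l : ↥(V M)) : K) * X (s, l) :
          Fin n → MvPolynomial (Fin n × Fin m) K) (f i)) =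
        eval (fun s => ∑ j, (α j * (∑ l, (w j (s, l)).re • ((b l : ↥(V M)) : K)) -
          β j * (∑ l, (w j (s, l)).im • ((b l : ↥(V M)) : K)))) (f i) := by
      rw [← aeval_eq_eval, ← aeval_eq_eval]
      have h3 := aeval_bind₁ (S := K) (fun x : Fin n × Fin m => ∑ j, (α j * algebraMap ℝ K (w j x).re -
        β j * algebraMap ℝ K (w j x).im)) (fun s => ∑ l, C ((b l : ↥(V M)) : K) * X (s, l) :
          Fin n → MvPolynomial (Fin n × Fin m) K) (f i)
      refine h3.trans ?_
      congr 2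
      funext s
      simp only [map_sum, map_mul, aeval_C, aeval_X, Algebra.algebraMap_self, RingHom.id_apply,
        Finset.mul_sum, Algebra.smul_def]
      rw [Finset.sum_comm]
      refine Finset.sum_congr rfl fun j _ => ?_
      rw [← Finset.sum_sub_distrib]
      refine Finset.sum_congr rfl fun l _ => ?_
      ring
    rw [← h2, h1]
    simp only [map_sum, map_mul, eval_C, eval_map]
    refine Finset.sum_congr rfl fun l _ => ?_
    congr 1
    exact transfer (x := fun j x => (w j x).re) (y := fun j x => (w j x).im) (hid ⟨i, l⟩) α β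

end Pool.Agent.Helper69.QAC
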