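import Pool.Agent.Helper69.QAC.Quart

/-!
# Quartic forms
-/

set_option autoImplicit false

namespace Pool.Agent.Helper69.QAC

open MvPolynomial

/-- Expansion of a quartic form with respect to the first variable. -/
theorem quartic_expand {K : Type*} [Field K] {n : ℕ} {f : MvPolynomial (Fin (n + 1)) K}
    (hf : f.IsHomogeneous 4) :
    ∃ F : Fin 4 → MvPolynomial (Fin n) K, (∀ i, (F i).IsHomogeneous (4 - (i : ℕ))) ∧
      ∃ c : K, ∀ (s : K) (x : Fin n → K), eval (Fin.cons s x : Fin (n + 1) → K) f =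
        eval x (F 0) + eval x (F 1) * s + eval x (F 2) * s ^ 2 + eval x (F 3) * s ^ 3 +
          c * s ^ 4 := by
  classical
  refine ⟨fun i => (finSuccEquiv K n f).coeff (i : ℕ), fun i => ?_,
    eval 0 ((finSuccEquiv K n f).coeff 4), fun s x => ?_⟩
  · exact hf.finSuccEquiv_coeff_isHomogeneous _ _ (by omega)
  · rw [eval_eq_eval_mv_eval']
    have hdeg : ((finSuccEquiv K n f).map (eval x)).natDegree < 5 := by
      refine lt_of_le_of_lt Polynomial.natDegree_map_le ?_
      rw [natDegree_finSuccEquiv]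
      have h1 := degreeOf_le_totalDegree f 0
      have h2 := hf.totalDegree_le
      omega
    rw [Polynomial.eval_eq_sum_range' hdeg]
    have h4 : eval x ((finSuccEquiv K n f).coeff 4) = eval 0 ((finSuccEquiv K n f).coeff 4) := by
      have h5 : ((finSuccEquiv K n f).coeff 4).IsHomogeneous 0 :=
        hf.finSuccEquiv_coeff_isHomogeneous _ _ (by omega)
      rw [← totalDegree_zero_iff_isHomogeneous, totalDegree_eq_zero_iff_eq_C] at h5
      rw [h5, eval_C, eval_C]
    simp only [Finset.sum_range_succ, Finset.sum_range_zero, Polynomial.coeff_map, zero_add,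
      pow_zero, mul_one, pow_one, Fin.isValue]
    rw [h4]
    rfl

/-- A ternary quadratic form given as a sum of parts. -/
theorem ternary_parts {K : Type*} [Field K] [Algebra ℝ K] (hFG : (⊤ : IntermediateField ℝ K).FG)
    {t : K} (ht : IsTranscendenceBasis ℝ (fun _ : Unit => t)) (hs : IsSumSq (-1 : K))
    (c : Fin 2 → Fin 2 → K) (e : Fin 2 → K) (g : K) :
    ∃ (y : Fin 2 → K) (z : K), (y ≠ 0 ∨ z ≠ 0) ∧
      (∑ i, ∑ j, c i j * (y i * y j)) + (∑ i, e i * y i) * z + g * z ^ 2 = 0 := by
  obtain ⟨y, hy0, hy⟩ := ternary hFG ht hs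
    (Fin.snoc (fun i => (Fin.snoc (c i) (e i) : Fin 3 → K)) (Fin.snoc (fun _ => 0) g : Fin 3 → K))
  refine ⟨fun i => y i.castSucc, y (Fin.last 2), ?_, ?_⟩
  · by_contra h
    push Not at h
    apply hy0
    funext i
    refine Fin.lastCases ?_ (fun i => ?_) i
    · exact h.2
    · exact congrFun h.1 i
  · rw [← hy]
    simp only [Fin.sum_univ_castSucc (n := 2), Fin.snoc_castSucc, Fin.snoc_last, zero_mul,
      Finset.sum_const_zero, zero_add, Finset.sum_add_distrib, Finset.sum_mul]
    have h1 : ∀ i : Fin 2, e i * (y i.castSucc * y (Fin.last 2)) =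
        e i * y i.castSucc * y (Fin.last 2) := fun i => by ring
    simp only [h1]
    ring

/-- **Quartic forms.** -/
theorem quartic_zero {K : Type*} [Field K] [Algebra ℝ K] (hFG : (⊤ : IntermediateField ℝ K).FG)
    {t : K} (ht : IsTranscendenceBasis ℝ (fun _ : Unit => t)) (hs : IsSumSq (-1 : K)) {n : ℕ}
    (hn : 106 ≤ n) {f : MvPolynomial (Fin n) K} (hf : f.IsHomogeneous 4) :
    ∃ x : Fin n → K, x ≠ 0 ∧ eval x f = 0 := by
  classical
  obtain ⟨n, rfl⟩ : ∃ m, n = m + 1 := ⟨n - 1, by omega⟩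
  obtain ⟨F, hF, c, hexp⟩ := quartic_expand hf
  have hc0 : (Epos 2 4 4).card ≤ 16 := by
    have h1 := card_Epos_even 2 2 4
    have h3 : (2 + 2 - 1).choose 2 = 3 := by decide
    have h4 : (2 * 2 + 2 * 2 - 1).choose (2 * 2) = 35 := by decide
    rw [h3, h4] at h1
    have h5 : 2 * (Epos 2 4 4).card + 3 ≤ 35 := h1
    omega
  have hc1 : (Epos 2 3 4).card ≤ 10 := by
    have h1 := card_Epos_le 2 3 4
    have h4 : (2 * 2 + 3 - 1).choose 3 = 20 := by decide
    rw [h4] at h1
    omega
  have hc2 : (Epos 2 2 4).card ≤ 4 := by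
    have h1 := card_Epos_even 2 1 4
    have h3 : (2 + 1 - 1).choose 1 = 2 := by decide
    have h4 : (2 * 2 + 2 * 1 - 1).choose (2 * 1) = 10 := by decide
    rw [h3, h4] at h1
    have h5 : 2 * (Epos 2 2 4).card + 2 ≤ 10 := h1
    omega
  have hc3 : (Epos 2 1 4).card ≤ 2 := by
    have h1 := card_Epos_le 2 1 4
    have h4 : (2 * 2 + 1 - 1).choose 1 = 4 := by decide
    rw [h4] at h1
    omega
  obtain ⟨p, q, Q, hpq, hQ, hid⟩ := torus_field hFG ht 2 4 n F (fun i => 4 - (i : ℕ))
    (fun i => Nat.sub_le _ _) hF (by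
      simp only [Fin.sum_univ_four, Fin.isValue, Fin.val_zero, Fin.val_one, Fin.val_two,
        show ((3 : Fin 4) : ℕ) = 3 from rfl, Nat.sub_zero, show 4 - 1 = 3 from rfl,
        show 4 - 2 = 2 from rfl, show 4 - 3 = 1 from rfl]
      omega)
  have hQ0 : (Q 0).IsHomogeneous 2 := by
    rcases hQ 0 with h | h
    · rw [h]; exact isHomogeneous_zero _ _ _
    · exact h.2
  have hQ1 : Q 1 = 0 := by
    rcases hQ 1 with h | h
    · exact h
    · exact absurd h.1 (by decide)
  have hQ2 : (Q 2).IsHomogeneous 1 := by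
    rcases hQ 2 with h | h
    · rw [h]; exact isHomogeneous_zero _ _ _
    · exact h.2
  have hQ3 : Q 3 = 0 := by
    rcases hQ 3 with h | h
    · exact h
    · exact absurd h.1 (by decide)
  obtain ⟨C0, hC0⟩ := quad_form hQ0
  obtain ⟨C2, hC2⟩ := lin_form hQ2
  have key : ∀ (s : K) (a b : Fin 2 → K),
      eval (Fin.cons s (fun l => ∑ j, (a j * p j l - b j * q j l)) : Fin (n + 1) → K) f =
        (∑ i, ∑ j, C0 i j * ((a i ^ 2 + b i ^ 2) * (a j ^ 2 + b j ^ 2))) +
          (∑ i, C2 i * (a i ^ 2 + b i ^ 2)) * s ^ 2 + c * (s ^ 2) ^ 2 := by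
    intro s a b
    rw [hexp, hid 0, hid 1, hid 2, hid 3, hQ1, hQ3, hC0, hC2, map_zero]
    ring
  obtain ⟨y, z, hyz, hzero⟩ := ternary_parts hFG ht hs C0 C2 c
  have h2 := char_ne_two K
  by_cases hz : z = 0
  · have hy : y ≠ 0 := by
      rcases hyz with h | h
      · exact h
      · exact absurd hz h
    obtain ⟨a, b, hab, hne⟩ := lift_ne h2 hpq (two_squares hFG ht hs) hy
    refine ⟨Fin.cons 0 (fun l => ∑ j, (a j * p j l - b j * q j l)), ?_, ?_⟩
    · intro h
      apply hne
      funext l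
      have := congrFun h l.succ
      rw [Fin.cons_succ] at this
      simpa [Finset.sum_apply] using this
    · rw [key]
      simp only [hab]
      rw [hz] at hzero
      linear_combination hzero
  · choose a b hab using fun j => two_squares hFG ht hs (y j * z)
    refine ⟨Fin.cons z (fun l => ∑ j, (a j * p j l - b j * q j l)), ?_, ?_⟩
    · intro h
      apply hz
      have := congrFun h 0
      rw [Fin.cons_zero] at this
      exact this
    · rw [key]
      simp only [← hab]
      have h3 : (∑ i, ∑ j, C0 i j * (y i * z * (y j * z))) =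
          z ^ 2 * ∑ i, ∑ j, C0 i j * (y i * y j) := by
        simp only [Finset.mul_sum]
        refine Finset.sum_congr rfl fun i _ => Finset.sum_congr rfl fun j _ => ?_
        ring
      have h4 : (∑ i, C2 i * (y i * z)) = z * ∑ i, C2 i * y i := by
        simp only [Finset.mul_sum]
        refine Finset.sum_congr rfl fun i _ => ?_
        ring
      rw [h3, h4]
      linear_combination z ^ 2 * hzero

end Pool.Agent.Helper69.QAC
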