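import Pool.Agent.Helper69.QAC.Odd
import Pool.Agent.Helper69.QAC.Four

/-!
# Systems of forms of bounded degree: the recursion on the degree
-/

set_option autoImplicit false

namespace Pool.Agent.Helper69.QAC

open MvPolynomial

/-- The number of variables needed for `r` forms of degrees at most `D`. -/
def bnd (r D : ℕ) : ℕ :=
  if D = 0 then 1 else
    if r = 1 ∧ D ≤ 3 then D + 1 else
      if r = 1 ∧ D = 4 then 106 else
        if h : 0 < D then r * (D * (2 * bnd r (D / 2) + D - 1).choose D / 2) + 1 else 1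
  decreasing_by omega

theorem bnd_zero (r : ℕ) : bnd r 0 = 1 := by
  rw [bnd, if_pos rfl]

theorem bnd_gen (r D : ℕ) (hD : 0 < D) (h1 : ¬ (r = 1 ∧ D ≤ 4)) :
    bnd r D = r * (D * (2 * bnd r (D / 2) + D - 1).choose D / 2) + 1 := by
  rw [bnd, if_neg (by omega), if_neg (by omega), if_neg (by omega), dif_pos hD]

theorem one_le_bnd (r D : ℕ) : 1 ≤ bnd r D := by
  rw [bnd]
  split_ifs <;> omega

/-- Quadratic forms in at least three variables. -/
theorem quadratic_zero {K : Type*} [Field K] [Algebra ℝ K] (hFG : (⊤ : IntermediateField ℝ K).FG)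
    {t : K} (ht : IsTranscendenceBasis ℝ (fun _ : Unit => t)) (hs : IsSumSq (-1 : K)) {n : ℕ}
    (hn : 3 ≤ n) {f : MvPolynomial (Fin n) K} (hf : f.IsHomogeneous 2) :
    ∃ x : Fin n → K, x ≠ 0 ∧ eval x f = 0 := by
  classical
  obtain ⟨e, rfl⟩ := Nat.exists_eq_add_of_le hn
  obtain ⟨c, hc⟩ := quad_form hf
  obtain ⟨y, hy0, hy⟩ := ternary hFG ht hs fun i j => c (Fin.castAdd e i) (Fin.castAdd e j)
  refine ⟨Fin.addCases y (fun _ => 0), ?_, ?_⟩
  · intro h0
    apply hy0
    funext i
    have := congrFun h0 (Fin.castAdd e i)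
    simpa using this
  · rw [hc]
    simp only [Fin.sum_univ_add, Fin.addCases_left, Fin.addCases_right, zero_mul, mul_zero,
      Finset.sum_const_zero, add_zero]
    exact hy

/-- **Systems of forms of bounded degree in many variables.** -/
theorem main_rec {K : Type*} [Field K] [Algebra ℝ K] (hFG : (⊤ : IntermediateField ℝ K).FG)
    {t : K} (ht : IsTranscendenceBasis ℝ (fun _ : Unit => t)) (hs : IsSumSq (-1 : K)) (r : ℕ) :
    ∀ D n : ℕ, bnd r D ≤ n → ∀ f : Fin r → MvPolynomial (Fin n) K,
    (∀ i, f i = 0 ∨ ∃ d, 0 < d ∧ d ≤ D ∧ (f i).IsHomogeneous d) →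
    ∃ x : Fin n → K, x ≠ 0 ∧ ∀ i, eval x (f i) = 0 := by
  classical
  intro D
  induction D using Nat.strong_induction_on with
  | _ D ih =>
    intro n hn f hf
    have htriv : (∀ i, f i = 0) → ∃ x : Fin n → K, x ≠ 0 ∧ ∀ i, eval x (f i) = 0 := by
      intro h
      have hn1 := (one_le_bnd r D).trans hn
      refine ⟨fun _ => 1, ?_, fun i => by rw [h, map_zero]⟩
      intro h
      have := congrFun h ⟨0, hn1⟩
      simp at this
    rcases Nat.eq_zero_or_pos D with rfl | hD
    · refine htriv fun i => ?_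
      rcases hf i with h | ⟨d, h1, h3, _⟩
      · exact h
      · omega
    by_cases hr : r = 1 ∧ D ≤ 4
    · obtain ⟨rfl, hD4⟩ := hr
      rcases hf 0 with h0 | ⟨d, hd0, hdD, hdh⟩
      · exact htriv fun i => by rw [Subsingleton.elim i 0, h0]
      have hodd : ∀ {n' : ℕ}, Odd d → d < n → ∃ x : Fin n → K, x ≠ 0 ∧ ∀ i, eval x (f i) = 0 := by
        intro _ h1 h2
        exact odd_field hFG ht n f (fun _ => d) (fun _ => h1)
          (fun i => by rw [Subsingleton.elim i 0]; exact hdh) (by
            rw [Fin.sum_univ_one]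
            exact h2)
      have hone : (∃ x : Fin n → K, x ≠ 0 ∧ eval x (f 0) = 0) →
          ∃ x : Fin n → K, x ≠ 0 ∧ ∀ i, eval x (f i) = 0 := by
        rintro ⟨x, hx, h⟩
        exact ⟨x, hx, fun i => by rw [Subsingleton.elim i 0]; exact h⟩
      have hb : D + 1 ≤ bnd 1 D := by
        rw [bnd]
        split_ifs <;> omega
      have hb4 : D = 4 → 106 ≤ bnd 1 D := by
        intro h4
        rw [h4, bnd, if_neg (by omega), if_neg (by omega), if_pos (by omega)]
      have hcases : d = 1 ∨ d = 2 ∨ d = 3 ∨ d = 4 := by omega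
      rcases hcases with rfl | rfl | rfl | rfl
      · exact hodd (n' := 0) (by decide) (by omega)
      · exact hone (quadratic_zero hFG ht hs (by omega) hdh)
      · exact hodd (n' := 0) (by decide) (by omega)
      · exact hone (quartic_zero hFG ht hs ((hb4 (by omega)).trans hn) hdh)
    have hk := ih (D / 2) (by omega)
    have hk1 := one_le_bnd r (D / 2)
    rw [bnd_gen r D hD hr] at hn
    set k := bnd r (D / 2) with hkdef
    have h2 := char_ne_two K
    have hd : ∀ i, ∃ d, d ≤ D ∧ (f i).IsHomogeneous d ∧ (f i = 0 ∨ 0 < d) := by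
      intro i
      rcases hf i with h | ⟨d, h1, h3, h4⟩
      · exact ⟨0, Nat.zero_le _, by rw [h]; exact isHomogeneous_zero _ _ _, Or.inl h⟩
      · exact ⟨d, h3, h4, Or.inr h1⟩
    choose d hdD hdh hd0 using hd
    have hcard : ∑ i, d i * (Epos k (d i) D).card < n := by
      have h1 : ∑ i, d i * (Epos k (d i) D).card ≤
          ∑ _i : Fin r, D * (2 * k + D - 1).choose D / 2 :=
        Finset.sum_le_sum fun i _ => cost_le hk1 (hdD i) D
      rw [Finset.sum_const, Finset.card_univ, Fintype.card_fin, smul_eq_mul] at h1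
      omega
    obtain ⟨p, q, Q, hpq, hQ, hid⟩ := torus_field hFG ht k D n f d hdD hdh hcard
    obtain ⟨y, hy0, hy⟩ := hk k le_rfl (fun i => if f i = 0 then 0 else Q i) (by
      intro i
      by_cases hfi : f i = 0
      · left; rw [if_pos hfi]
      · rw [if_neg hfi]
        rcases hQ i with h | ⟨h1, h3⟩
        · exact Or.inl h
        · right
          have := (hd0 i).resolve_left hfi
          have := hdD i
          exact ⟨d i / 2, by omega, by omega, h3⟩)
    obtain ⟨a, b, hab, hne⟩ := lift_ne h2 hpq (two_squares hFG ht hs) hy0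
    refine ⟨∑ j, (a j • p j - b j • q j), hne, fun i => ?_⟩
    have h1 : (∑ j, (a j • p j - b j • q j)) = fun s => ∑ j, (a j * p j s - b j * q j s) := by
      funext s
      simp [Finset.sum_apply]
    by_cases hfi : f i = 0
    · rw [hfi, map_zero]
    · have h3 := hy i
      simp only [if_neg hfi] at h3
      rw [h1, hid i a b, ← h3]
      congr 2
      funext j
      exact hab j

end Pool.Agent.Helper69.QAC
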