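import Pool.Agent.Helper69.QAC.Rec
import Pool.Agent.Helper95.LCT0

/-!
# Systems of forms of odd degrees
-/

set_option autoImplicit false

namespace Pool.Agent.Helper69.QAC

open MvPolynomial

theorem eval_mul_left {L σ : Type*} [Field L] {f : MvPolynomial σ L} {d : ℕ}
    (hf : f.IsHomogeneous d) (c : L) (x : σ → L) :
    eval (fun i => c * x i) f = c ^ d * eval x f := by
  rw [eval_eq, eval_eq, Finset.mul_sum]
  refine Finset.sum_congr rfl fun m hm => ?_
  have h1 : d = ∑ i ∈ m.support, m i := hf.degree_eq_sum_deg_support hm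
  simp only [mul_pow]
  rw [Finset.prod_mul_distrib, Finset.prod_pow_eq_pow_sum, ← h1]
  ring

/-- Real forms of odd degrees, more variables than forms. -/
theorem real_odd {ι κ : Type*} [Fintype ι] [Fintype κ] (P : κ → MvPolynomial ι ℝ) (d : κ → ℕ)
    (hd : ∀ h, Odd (d h)) (hP : ∀ h, (P h).IsHomogeneous (d h))
    (hcard : Fintype.card κ < Fintype.card ι) : ∃ x : ι → ℝ, x ≠ 0 ∧ ∀ h, eval x (P h) = 0 := by
  classical
  set n := Fintype.card κ with hn
  obtain ⟨m, hm⟩ : ∃ m, Fintype.card ι = (n + 1) + m := ⟨Fintype.card ι - (n + 1), by omega⟩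
  let e : Fin n ≃ κ := (Fintype.equivFin κ).symm
  let ε : ι ≃ Fin ((n + 1) + m) := (Fintype.equivFin ι).trans (finCongr hm)
  let L : EuclideanSpace ℝ (Fin (n + 1)) → ι → ℝ := fun x i =>
    if h : (ε i : ℕ) < n + 1 then x ⟨ε i, h⟩ else 0
  have hL : Continuous L := by
    refine continuous_pi fun i => ?_
    by_cases h : (ε i : ℕ) < n + 1
    · simp only [L, h, dif_pos]
      exact (continuous_apply _).comp (PiLp.continuous_ofLp 2 _)
    · simp only [L, h, dif_neg, not_false_iff]
      exact continuous_const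
  have hneg : ∀ x, L (-x) = -L x := by
    intro x
    funext i
    by_cases h : (ε i : ℕ) < n + 1
    · simp only [L, h, dif_pos, Pi.neg_apply]
      rfl
    · simp only [L, h, dif_neg, not_false_iff, Pi.neg_apply, neg_zero]
  have hev : ∀ h, Continuous fun x : ι → ℝ => eval x (P h) := fun h =>
    MvPolynomial.continuous_eval _
  obtain ⟨x, hx, h⟩ := Pool.Agent.Helper26.LC.bu n (fun i x => eval (L x) (P (e i)))
    (fun i => ((hev (e i)).comp hL).continuousOn)
    (fun i x _ => by
      have h1 : (-L x) = fun s => (-1) * L x s := by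
        funext s
        simp
      rw [hneg, h1, eval_mul_left (hP (e i)), (hd (e i)).neg_one_pow, neg_one_mul])
  refine ⟨L x, ?_, fun k => ?_⟩
  · intro h0
    apply hx
    ext j
    have h1 := congrFun h0 (ε.symm ⟨j, by omega⟩)
    simp only [L, Equiv.apply_symm_apply, dif_pos j.2, Pi.zero_apply] at h1
    simpa using h1
  · have h1 := h (e.symm k)
    simpa using h1

/-- **Forms of odd degrees over a real function field of one variable** (Lang 1953). -/
theorem odd_field {K : Type*} [Field K] [Algebra ℝ K] (hFG : (⊤ : IntermediateField ℝ K).FG)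
    {t : K} (ht : IsTranscendenceBasis ℝ (fun _ : Unit => t)) {r : ℕ} (n : ℕ)
    (f : Fin r → MvPolynomial (Fin n) K) (d : Fin r → ℕ) (hd : ∀ i, Odd (d i))
    (hf : ∀ i, (f i).IsHomogeneous (d i)) (hn : ∑ i, d i < n) :
    ∃ x : Fin n → K, x ≠ 0 ∧ ∀ i, eval x (f i) = 0 := by
  classical
  obtain ⟨μ, V, hμ, hV, hgr⟩ := growth hFG ht
  set A : Fin r → Submodule ℝ K := fun i =>
    Submodule.span ℝ (Set.range fun s : (f i).support => coeff (s : Fin n →₀ ℕ) (f i)) with hA
  have hAfg : ∀ i, (A i).FG := fun i => Submodule.fg_span (Set.finite_range _)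
  have hc := fun i => hgr (A i) (hAfg i) (d i)
  choose c hc using hc
  set M := ∑ i, c i with hM
  set m := μ * (M + 1) with hm
  have hVfin : Module.Finite ℝ ↥(V M) := Module.Finite.iff_fg.2 (hV M).1
  set b : Module.Basis (Fin m) ℝ ↥(V M) := Module.finBasisOfFinrankEq ℝ _ (hV M).2 with hb
  set U : Fin r → Submodule ℝ K := fun i => A i * V M ^ d i with hU
  have hUfin : ∀ i, Module.Finite ℝ ↥(U i) := fun i =>
    Module.Finite.iff_fg.2 ((hAfg i).mul ((hV M).1.pow _))
  set h : Fin r → ℕ := fun i => Module.finrank ℝ ↥(U i) with hh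
  set g : ∀ i, Module.Basis (Fin (h i)) ℝ ↥(U i) := fun i => Module.finBasis ℝ ↥(U i) with hg
  have hdec := fun i => (polyIn_subst (hf i) (V := V M) (b := fun l => ((b l : ↥(V M)) : K))
    (fun l => (b l).2)).decomp (g i) (homogeneous_subst (hf i) _)
  choose P hP1 hP2 using hdec
  have hcard : Fintype.card (Σ i, Fin (h i)) < Fintype.card (Fin n × Fin m) := by
    rw [Fintype.card_sigma]
    simp only [Fintype.card_fin, Fintype.card_prod]
    calc ∑ i, h i ≤ ∑ i, μ * (d i * M + c i) := Finset.sum_le_sum fun i _ => hc i M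
      _ = μ * ((∑ i, d i) * M + M) := by
          rw [← Finset.mul_sum, Finset.sum_add_distrib, ← Finset.sum_mul]
      _ ≤ μ * (n * M) := by
          refine Nat.mul_le_mul_left _ ?_
          have : ∑ i, d i + 1 ≤ n := hn
          calc (∑ i, d i) * M + M = (∑ i, d i + 1) * M := by ring
            _ ≤ n * M := Nat.mul_le_mul_right _ this
      _ < μ * (n * (M + 1)) := by
          refine Nat.mul_lt_mul_of_pos_left ?_ hμ
          have : 0 < n := by omega
          exact Nat.mul_lt_mul_of_pos_left (Nat.lt_succ_self _) this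
      _ = n * m := by rw [hm]; ring
  obtain ⟨w, hw, hz⟩ := real_odd (fun x : (Σ i, Fin (h i)) => P x.1 x.2) (fun x => d x.1)
    (fun x => hd _) (fun x => hP1 _ _) hcard
  refine ⟨fun s => ∑ l, w (s, l) • ((b l : ↥(V M)) : K), ?_, fun i => ?_⟩
  · intro hcon
    apply hw
    have hli : LinearIndependent ℝ fun l => ((b l : ↥(V M)) : K) :=
      b.linearIndependent.map' (V M).subtype (Submodule.ker_subtype _)
    rw [Fintype.linearIndependent_iff] at hli
    funext ⟨s, l⟩
    exact hli _ (congrFun hcon s) l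
  · have h1 := congrArg (eval fun x : Fin n × Fin m => algebraMap ℝ K (w x)) (hP2 i)
    have h2 : eval (fun x : Fin n × Fin m => algebraMap ℝ K (w x))
        (bind₁ (fun s => ∑ l, C ((b l : ↥(V M)) : K) * X (s, l) :
          Fin n → MvPolynomial (Fin n × Fin m) K) (f i)) =
        eval (fun s => ∑ l, w (s, l) • ((b l : ↥(V M)) : K)) (f i) := by
      rw [← aeval_eq_eval, ← aeval_eq_eval]
      have h3 := aeval_bind₁ (S := K) (fun x : Fin n × Fin m => algebraMap ℝ K (w x))
        (fun s => ∑ l, C ((b l : ↥(V M)) : K) * X (s, l) :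
          Fin n → MvPolynomial (Fin n × Fin m) K) (f i)
      refine h3.trans ?_
      congr 2
      funext s
      simp only [map_sum, map_mul, aeval_C, aeval_X, Algebra.algebraMap_self, RingHom.id_apply,
        Algebra.smul_def]
      refine Finset.sum_congr rfl fun l _ => ?_
      ring
    rw [← h2, h1]
    simp only [map_sum, map_mul, eval_C, eval_map]
    refine Finset.sum_eq_zero fun l _ => ?_
    have h4 : eval₂ (algebraMap ℝ K) (fun x => algebraMap ℝ K (w x)) (P i l) =
        algebraMap ℝ K (eval w (P i l)) := by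
      rw [← coe_aeval_eq_eval, ← MvPolynomial.aeval_def]
      exact aeval_algebraMap_apply (B := K) w (P i l)
    rw [h4, hz ⟨i, l⟩, map_zero, mul_zero]

end Pool.Agent.Helper69.QAC
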