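import Pool.Agent.Helper69.QAC.Rec

/-!
# Quadratic forms in three variables, quartic forms
-/

set_option autoImplicit false

namespace Pool.Agent.Helper69.QAC

open MvPolynomial

theorem exists_single_add {k : ℕ} {s : Fin k →₀ ℕ} {d : ℕ} (hs : Finsupp.degree s = d + 1) :
    ∃ (i : Fin k) (s' : Fin k →₀ ℕ), s = Finsupp.single i 1 + s' ∧ Finsupp.degree s' = d := by
  classical
  have h0 : s ≠ 0 := by
    rintro rfl
    simp at hs
  obtain ⟨i, hi⟩ := Finsupp.ne_iff.1 h0
  simp only [Finsupp.coe_zero, Pi.zero_apply] at hi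
  have h1 : s = Finsupp.single i 1 + (s - Finsupp.single i 1) := by
    ext j
    simp only [Finsupp.coe_add, Finsupp.coe_tsub, Pi.add_apply, Pi.sub_apply, Finsupp.single_apply]
    split_ifs with h
    · subst h; omega
    · omega
  refine ⟨i, s - Finsupp.single i 1, h1, ?_⟩
  have h3 := congrArg Finsupp.degree h1
  rw [map_add, Finsupp.degree_single, hs] at h3
  omega

theorem degree_zero_eq {k : ℕ} {s : Fin k →₀ ℕ} (hs : Finsupp.degree s = 0) : s = 0 := by
  ext i
  rw [Finsupp.degree_eq_sum] at hs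
  have := Finset.single_le_sum (f := fun i => s i) (fun _ _ => Nat.zero_le _) (Finset.mem_univ i)
  simp only [Finsupp.coe_zero, Pi.zero_apply]
  omega

theorem lin_form {K : Type*} [Field K] {k : ℕ} {Q : MvPolynomial (Fin k) K}
    (hQ : Q.IsHomogeneous 1) : ∃ c : Fin k → K, ∀ y, eval y Q = ∑ i, c i * y i := by
  classical
  have h1 : ∀ μ : Q.support, ∃ i : Fin k, (μ : Fin k →₀ ℕ) = Finsupp.single i 1 := by
    rintro ⟨μ, hμ⟩
    have hdeg : Finsupp.degree μ = 0 + 1 := by
      by_contra h
      exact (mem_support_iff.1 hμ) (hQ.coeff_eq_zero h)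
    obtain ⟨i, s', h, h'⟩ := exists_single_add hdeg
    exact ⟨i, h.trans (by rw [degree_zero_eq h', add_zero])⟩
  choose i hi using h1
  refine ⟨fun l => ∑ μ : Q.support, if i μ = l then coeff (μ : Fin k →₀ ℕ) Q else 0, fun y => ?_⟩
  rw [eval_eq', ← Finset.sum_coe_sort Q.support]
  simp only [Finset.sum_mul, ite_mul, zero_mul]
  rw [Finset.sum_comm]
  refine Finset.sum_congr rfl fun μ _ => ?_
  rw [Finset.sum_ite_eq, if_pos (Finset.mem_univ _)]
  congr 1
  rw [hi μ, Finset.prod_eq_single (i μ)]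
  · simp
  · intro j _ hj
    rw [Finsupp.single_eq_of_ne hj, pow_zero]
  · simp

theorem quad_form {K : Type*} [Field K] {k : ℕ} {Q : MvPolynomial (Fin k) K}
    (hQ : Q.IsHomogeneous 2) :
    ∃ c : Fin k → Fin k → K, ∀ y, eval y Q = ∑ i, ∑ j, c i j * (y i * y j) := by
  classical
  have h1 : ∀ μ : Q.support, ∃ ij : Fin k × Fin k,
      (μ : Fin k →₀ ℕ) = Finsupp.single ij.1 1 + Finsupp.single ij.2 1 := by
    rintro ⟨μ, hμ⟩
    have hdeg : Finsupp.degree μ = 1 + 1 := by
      by_contra h
      exact (mem_support_iff.1 hμ) (hQ.coeff_eq_zero h)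
    obtain ⟨i, s', h, h'⟩ := exists_single_add hdeg
    obtain ⟨j, s'', h2, h2'⟩ := exists_single_add (d := 0) h'
    exact ⟨(i, j), h.trans (by rw [h2, degree_zero_eq h2', add_zero])⟩
  choose ij hij using h1
  refine ⟨fun l l' => ∑ μ : Q.support, if ij μ = (l, l') then coeff (μ : Fin k →₀ ℕ) Q else 0,
    fun y => ?_⟩
  rw [eval_eq', ← Finset.sum_coe_sort Q.support]
  simp only [Finset.sum_mul, ite_mul, zero_mul]
  rw [← Fintype.sum_prod_type' (f := fun l l' => ∑ μ : Q.support,
    if ij μ = (l, l') then coeff (μ : Fin k →₀ ℕ) Q * (y l * y l') else 0), Finset.sum_comm]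
  refine Finset.sum_congr rfl fun μ _ => ?_
  simp only [Prod.mk.eta]
  rw [Finset.sum_ite_eq, if_pos (Finset.mem_univ _)]
  congr 1
  rw [hij μ]
  simp only [Finsupp.coe_add, Pi.add_apply, pow_add, Finset.prod_mul_distrib]
  congr 1
  · rw [Finset.prod_eq_single (ij μ).1]
    · simp
    · intro j _ hj
      rw [Finsupp.single_eq_of_ne hj, pow_zero]
    · simp
  · rw [Finset.prod_eq_single (ij μ).2]
    · simp
    · intro j _ hj
      rw [Finsupp.single_eq_of_ne hj, pow_zero]
    · simp

/-- Every quadratic form in three variables over a nonreal function field is isotropic. -/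
theorem ternary {K : Type*} [Field K] [Algebra ℝ K] (hFG : (⊤ : IntermediateField ℝ K).FG) {t : K}
    (ht : IsTranscendenceBasis ℝ (fun _ : Unit => t)) (hs : IsSumSq (-1 : K))
    (c : Fin 3 → Fin 3 → K) :
    ∃ y : Fin 3 → K, y ≠ 0 ∧ ∑ i, ∑ j, c i j * (y i * y j) = 0 := by
  classical
  have h2 := char_ne_two K
  set φ : (Fin 3 → K) → K := fun y => ∑ i, ∑ j, c i j * (y i * y j) with hφ
  set B : (Fin 3 → K) → (Fin 3 → K) → K := fun x y => ∑ i, ∑ j, c i j * (x i * y j + y i * x j)
    with hB
  have hadd : ∀ (a b e : K) (x y z : Fin 3 → K), φ (fun s => a * x s + b * y s + e * z s) =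
      a ^ 2 * φ x + b ^ 2 * φ y + e ^ 2 * φ z + a * b * B x y + a * e * B x z + b * e * B y z := by
    intro a b e x y z
    simp only [hφ, hB, Finset.mul_sum, ← Finset.sum_add_distrib]
    refine Finset.sum_congr rfl fun i _ => Finset.sum_congr rfl fun j _ => ?_
    ring
  set f : MvPolynomial (Fin 3) K := ∑ i, ∑ j, C (c i j) * (X i * X j) with hf
  have hfh : f.IsHomogeneous 2 := by
    refine IsHomogeneous.sum _ _ _ fun i _ => IsHomogeneous.sum _ _ _ fun j _ => ?_
    have := (isHomogeneous_C (Fin 3) (c i j)).mul ((isHomogeneous_X K i).mul (isHomogeneous_X K j))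
    exact this
  have hfe : ∀ y, eval y f = φ y := by
    intro y
    simp [hf, hφ]
  obtain ⟨p, q, Q, hpq, hQ, hid⟩ := torus_field hFG ht (r := 1) 1 2 3 (fun _ => f) (fun _ => 2)
    (fun _ => le_rfl) (fun _ => hfh) (by decide)
  have hQ1 : ∃ e : K, ∀ y, eval y (Q 0) = e * y 0 := by
    rcases hQ 0 with h | ⟨_, h⟩
    · exact ⟨0, fun y => by rw [h, map_zero, zero_mul]⟩
    · obtain ⟨e, he⟩ := lin_form h
      exact ⟨e 0, fun y => by rw [he, Fin.sum_univ_one]⟩
  obtain ⟨e, he⟩ := hQ1
  have hrel : ∀ a b : K, φ (fun s => a * p 0 s - b * q 0 s) = e * (a ^ 2 + b ^ 2) := by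
    intro a b
    have h1 := hid 0 (fun _ => a) (fun _ => b)
    rw [he, hfe] at h1
    simpa [Fin.sum_univ_one] using h1
  have hexp : ∀ a b : K, a ^ 2 * φ (p 0) + b ^ 2 * φ (q 0) - a * b * B (p 0) (q 0) =
      e * (a ^ 2 + b ^ 2) := by
    intro a b
    rw [← hrel a b]
    have h1 := hadd a (-b) 0 (p 0) (q 0) 0
    have h3 : (fun s => a * p 0 s + -b * q 0 s + 0 * (0 : Fin 3 → K) s) =
        fun s => a * p 0 s - b * q 0 s := by
      funext s; ring
    rw [h3] at h1
    rw [h1]
    ring
  have hp : φ (p 0) = e := by linear_combination hexp 1 0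
  have hq : φ (q 0) = e := by linear_combination hexp 0 1
  have hBpq : B (p 0) (q 0) = 0 := by linear_combination -(hexp 1 1) + hp + hq
  by_cases he0 : e = 0
  · rcases hpq 0 with h | h
    · exact ⟨p 0, h, by rw [← he0]; exact hp⟩
    · exact ⟨q 0, h, by rw [← he0]; exact hq⟩
  -- a vector orthogonal to `p` and `q`
  have hBlin : ∀ x : Fin 3 → K, ∃ L : (Fin 3 → K) →ₗ[K] K, ∀ y, L y = B x y := by
    intro x
    refine ⟨{ toFun := B x, map_add' := ?_, map_smul' := ?_ }, fun y => rfl⟩
    · intro y z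
      simp only [hB, Pi.add_apply, ← Finset.sum_add_distrib]
      refine Finset.sum_congr rfl fun i _ => Finset.sum_congr rfl fun j _ => ?_
      ring
    · intro a y
      simp only [hB, Pi.smul_apply, smul_eq_mul, RingHom.id_apply, Finset.mul_sum]
      refine Finset.sum_congr rfl fun i _ => Finset.sum_congr rfl fun j _ => ?_
      ring
  obtain ⟨L, hL⟩ := hBlin (p 0)
  obtain ⟨L', hL'⟩ := hBlin (q 0)
  obtain ⟨r, hr0, hr⟩ : ∃ r : Fin 3 → K, r ≠ 0 ∧ (L.prod L') r = 0 := by
    by_contra hcon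
    push Not at hcon
    have hinj : Function.Injective (L.prod L') := by
      rw [← LinearMap.ker_eq_bot, LinearMap.ker_eq_bot']
      intro x hx
      by_contra h
      exact hcon x h hx
    have := LinearMap.finrank_le_finrank_of_injective hinj
    simp at this
  have hr1 : B (p 0) r = 0 := by
    rw [← hL]
    exact congrArg Prod.fst hr
  have hr2 : B (q 0) r = 0 := by
    rw [← hL']
    exact congrArg Prod.snd hr
  obtain ⟨a, b, hab⟩ := two_squares hFG ht hs (-φ r / e)
  have hval := hadd a (-b) 1 (p 0) (q 0) r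
  refine ⟨fun s => a * p 0 s + -b * q 0 s + 1 * r s, ?_, ?_⟩
  · intro h0
    have hself : ∀ x, B x x = 2 * φ x := by
      intro x
      simp only [hB, hφ, Finset.mul_sum]
      refine Finset.sum_congr rfl fun i _ => Finset.sum_congr rfl fun j _ => ?_
      ring
    have hsymm : B (q 0) (p 0) = 0 := by
      rw [← hBpq]
      simp only [hB]
      refine Finset.sum_congr rfl fun i _ => Finset.sum_congr rfl fun j _ => ?_
      ring
    have h3 : a • p 0 + (-b) • q 0 + r = 0 := by
      funext s
      have := congrFun h0 s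
      simpa using this
    have h4 := congrArg L h3
    have h5 := congrArg L' h3
    rw [map_add, map_add, map_smul, map_smul, map_zero, hL, hL, hL, hr1, hself, hp, hBpq,
      smul_zero, add_zero, add_zero, smul_eq_mul] at h4
    rw [map_add, map_add, map_smul, map_smul, map_zero, hL', hL', hL', hr2, hself, hq, hsymm,
      smul_zero, zero_add, add_zero, smul_eq_mul] at h5
    have ha : a = 0 := by
      rcases mul_eq_zero.1 h4 with h | h
      · exact h
      · exact absurd h (mul_ne_zero h2 he0)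
    have hb : b = 0 := by
      rcases mul_eq_zero.1 h5 with h | h
      · exact neg_eq_zero.1 h
      · exact absurd h (mul_ne_zero h2 he0)
    apply hr0
    rw [ha, hb] at h3
    simpa using h3
  · show φ (fun s => a * p 0 s + -b * q 0 s + 1 * r s) = 0
    rw [hval, hp, hq, hBpq, hr1, hr2]
    have h3 : e * (a ^ 2 + b ^ 2) = -φ r := by
      rw [← hab]
      field_simp
    linear_combination h3

end Pool.Agent.Helper69.QAC
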