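import Pool.Agent.Helper69.QAC.Witt

/-!
# Lifting of zeros, and the number of conditions
-/

set_option autoImplicit false

namespace Pool.Agent.Helper69.QAC

open MvPolynomial

/-- The choice of the square roots. -/
theorem lift_ne {K V : Type*} [Field K] [AddCommGroup V] [Module K V] (h2 : (2 : K) ≠ 0) {k : ℕ}
    {p q : Fin k → V} (hpq : ∀ j, p j ≠ 0 ∨ q j ≠ 0) (hsq : ∀ c : K, ∃ x y : K, c = x ^ 2 + y ^ 2)
    {y : Fin k → K} (hy : y ≠ 0) :
    ∃ a b : Fin k → K, (∀ j, a j ^ 2 + b j ^ 2 = y j) ∧ ∑ j, (a j • p j - b j • q j) ≠ 0 := by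
  classical
  choose a b hab using fun j => hsq (y j)
  obtain ⟨j₀, hj₀⟩ := Function.ne_iff.1 hy
  simp only [Pi.zero_apply] at hj₀
  by_contra hcon
  push Not at hcon
  set R : V := ∑ j ∈ Finset.univ.erase j₀, (a j • p j - b j • q j) with hR
  have hrep : ∀ c d : K, c ^ 2 + d ^ 2 = y j₀ → (c • p j₀ - d • q j₀) + R = 0 := by
    intro c d hcd
    have h1 := hcon (Function.update a j₀ c) (Function.update b j₀ d) (by
      intro j
      by_cases hj : j = j₀
      · subst hj
        rw [Function.update_self, Function.update_self, hcd]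
      · rw [Function.update_of_ne hj, Function.update_of_ne hj, hab j])
    rw [← Finset.add_sum_erase _ _ (Finset.mem_univ j₀), Function.update_self,
      Function.update_self] at h1
    rw [← h1, hR]
    congr 1
    refine Finset.sum_congr rfl fun j hj => ?_
    rw [Function.update_of_ne (Finset.ne_of_mem_erase hj),
      Function.update_of_ne (Finset.ne_of_mem_erase hj)]
  have e1 := hrep (a j₀) (b j₀) (hab j₀).symm
  have e2 := hrep (-a j₀) (-b j₀) (by rw [neg_sq, neg_sq]; exact (hab j₀).symm)
  have e3 := hrep (-b j₀) (a j₀) (by rw [neg_sq, add_comm]; exact (hab j₀).symm)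
  have hR0 : R = 0 := by
    have h3 : (2 : K) • R = 0 := by
      have h4 : (2 : K) • R = ((a j₀ • p j₀ - b j₀ • q j₀) + R) +
          ((-a j₀) • p j₀ - (-b j₀) • q j₀ + R) := by
        rw [two_smul, neg_smul, neg_smul]
        abel
      rw [h4, e1, e2, add_zero]
    exact (smul_eq_zero.1 h3).resolve_left h2
  rw [hR0, add_zero] at e1 e3
  have hp : (a j₀ ^ 2 + b j₀ ^ 2) • p j₀ = 0 := by
    have h4 : (a j₀ ^ 2 + b j₀ ^ 2) • p j₀ =
        a j₀ • (a j₀ • p j₀ - b j₀ • q j₀) - b j₀ • ((-b j₀) • p j₀ - a j₀ • q j₀) := by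
      module
    rw [h4, e1, e3, smul_zero, smul_zero, sub_zero]
  have hq : (a j₀ ^ 2 + b j₀ ^ 2) • q j₀ = 0 := by
    have h4 : (a j₀ ^ 2 + b j₀ ^ 2) • q j₀ =
        -(b j₀ • (a j₀ • p j₀ - b j₀ • q j₀)) - a j₀ • ((-b j₀) • p j₀ - a j₀ • q j₀) := by
      module
    rw [h4, e1, e3, smul_zero, smul_zero, sub_zero, neg_zero]
  rw [← hab j₀] at hp hq
  rcases hpq j₀ with h | h
  · exact h ((smul_eq_zero.1 hp).resolve_left hj₀)
  · exact h ((smul_eq_zero.1 hq).resolve_left hj₀)

/-- The number of pairs `(α, β)` of total degree `d` and positive weight. -/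
theorem card_Epos_le (k d D : ℕ) : 2 * (Epos k d D).card ≤ (2 * k + d - 1).choose d := by
  classical
  set T : Finset (Fin k ⊕ Fin k →₀ ℕ) := (Finset.univ : Finset (Fin k ⊕ Fin k)).finsuppAntidiag d
    with hT
  have hTc : T.card = (2 * k + d - 1).choose d := by
    rw [hT, Finset.card_finsuppAntidiag_nat_eq_choose, Finset.card_univ, Fintype.card_sum,
      Fintype.card_fin, two_mul]
  have hinj : ∀ q q' : (Fin k → Fin (D + 1)) × (Fin k → Fin (D + 1)), expo q = expo q' → q = q' := by
    intro q q' h
    refine Prod.ext ?_ ?_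
    · funext j
      have := congrArg (fun μ : Fin k ⊕ Fin k →₀ ℕ => μ (Sum.inl j)) h
      simp only [expo, Finsupp.equivFunOnFinite_symm_apply_apply, Sum.elim_inl] at this
      exact Fin.ext this
    · funext j
      have := congrArg (fun μ : Fin k ⊕ Fin k →₀ ℕ => μ (Sum.inr j)) h
      simp only [expo, Finsupp.equivFunOnFinite_symm_apply_apply, Sum.elim_inr] at this
      exact Fin.ext this
  set A : Finset (Fin k ⊕ Fin k →₀ ℕ) := (Epos k d D).image expo with hA
  set B : Finset (Fin k ⊕ Fin k →₀ ℕ) := (Epos k d D).image (fun q => expo q.swap) with hB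
  have hAc : A.card = (Epos k d D).card :=
    Finset.card_image_of_injective _ fun q q' h => hinj _ _ h
  have hBc : B.card = (Epos k d D).card :=
    Finset.card_image_of_injective _ fun q q' h => Prod.swap_injective (hinj _ _ h)
  have hdisj : Disjoint A B := by
    rw [Finset.disjoint_left]
    intro μ h1 h2
    rw [hA, Finset.mem_image] at h1
    rw [hB, Finset.mem_image] at h2
    obtain ⟨q, hq, rfl⟩ := h1
    obtain ⟨q', hq', h⟩ := h2
    have h3 := hinj _ _ h
    subst h3
    rw [Epos, Finset.mem_filter] at hq hq'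
    have h4 := hq.2.2
    have h5 := hq'.2.2
    simp only [Prod.fst_swap, Prod.snd_swap] at h4
    omega
  have hsub : A ∪ B ⊆ T := by
    intro μ hμ
    rw [Finset.mem_union] at hμ
    rw [hT, Finset.mem_finsuppAntidiag]
    refine ⟨?_, Finset.subset_univ _⟩
    rcases hμ with h | h
    · rw [hA, Finset.mem_image] at h
      obtain ⟨q, hq, rfl⟩ := h
      rw [Epos, Finset.mem_filter] at hq
      rw [Fintype.sum_sum_type]
      simp only [expo, Finsupp.equivFunOnFinite_symm_apply_apply, Sum.elim_inl, Sum.elim_inr]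
      exact hq.2.1
    · rw [hB, Finset.mem_image] at h
      obtain ⟨q, hq, rfl⟩ := h
      rw [Epos, Finset.mem_filter] at hq
      rw [Fintype.sum_sum_type]
      simp only [expo, Finsupp.equivFunOnFinite_symm_apply_apply, Sum.elim_inl, Sum.elim_inr,
        Prod.fst_swap, Prod.snd_swap]
      rw [add_comm]
      exact hq.2.1
  have h1 := Finset.card_le_card hsub
  rw [Finset.card_union_of_disjoint hdisj, hAc, hBc, hTc] at h1
  omega

theorem expo_injective (k D : ℕ) :
    Function.Injective (expo : (Fin k → Fin (D + 1)) × (Fin k → Fin (D + 1)) → _) := by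
  intro q q' h
  refine Prod.ext ?_ ?_
  · funext j
    have := congrArg (fun μ : Fin k ⊕ Fin k →₀ ℕ => μ (Sum.inl j)) h
    simp only [expo, Finsupp.equivFunOnFinite_symm_apply_apply, Sum.elim_inl] at this
    exact Fin.ext this
  · funext j
    have := congrArg (fun μ : Fin k ⊕ Fin k →₀ ℕ => μ (Sum.inr j)) h
    simp only [expo, Finsupp.equivFunOnFinite_symm_apply_apply, Sum.elim_inr] at this
    exact Fin.ext this

/-- The number of pairs `(α, β)` of total degree `2 e` and positive weight. -/
theorem card_Epos_even (k e D : ℕ) :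
    2 * (Epos k (2 * e) D).card + (k + e - 1).choose e ≤ (2 * k + 2 * e - 1).choose (2 * e) := by
  classical
  set T : Finset (Fin k ⊕ Fin k →₀ ℕ) :=
    (Finset.univ : Finset (Fin k ⊕ Fin k)).finsuppAntidiag (2 * e) with hT
  have hTc : T.card = (2 * k + 2 * e - 1).choose (2 * e) := by
    rw [hT, Finset.card_finsuppAntidiag_nat_eq_choose, Finset.card_univ, Fintype.card_sum,
      Fintype.card_fin, two_mul k]
  set A : Finset (Fin k ⊕ Fin k →₀ ℕ) := (Epos k (2 * e) D).image expo with hA
  set B : Finset (Fin k ⊕ Fin k →₀ ℕ) := (Epos k (2 * e) D).image (fun q => expo q.swap) with hB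
  set dg : (Fin k →₀ ℕ) → (Fin k ⊕ Fin k →₀ ℕ) :=
    fun ν => Finsupp.equivFunOnFinite.symm (Sum.elim (fun j => ν j) (fun j => ν j)) with hdg
  set Z : Finset (Fin k ⊕ Fin k →₀ ℕ) :=
    ((Finset.univ : Finset (Fin k)).finsuppAntidiag e).image dg with hZ
  have hAc : A.card = (Epos k (2 * e) D).card :=
    Finset.card_image_of_injective _ fun q q' h => expo_injective _ _ h
  have hBc : B.card = (Epos k (2 * e) D).card :=
    Finset.card_image_of_injective _ fun q q' h => Prod.swap_injective (expo_injective _ _ h)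
  have hZc : Z.card = (k + e - 1).choose e := by
    rw [hZ, Finset.card_image_of_injective, Finset.card_finsuppAntidiag_nat_eq_choose,
      Finset.card_univ, Fintype.card_fin]
    intro ν ν' h
    ext j
    have := congrArg (fun μ : Fin k ⊕ Fin k →₀ ℕ => μ (Sum.inl j)) h
    simpa [hdg] using this
  have hdisj : Disjoint A B := by
    rw [Finset.disjoint_left]
    intro μ h1 h2
    rw [hA, Finset.mem_image] at h1
    rw [hB, Finset.mem_image] at h2
    obtain ⟨q, hq, rfl⟩ := h1
    obtain ⟨q', hq', h⟩ := h2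
    have h3 := expo_injective _ _ h
    subst h3
    rw [Epos, Finset.mem_filter] at hq hq'
    have h4 := hq.2.2
    have h5 := hq'.2.2
    simp only [Prod.fst_swap, Prod.snd_swap] at h4
    omega
  have hdisj2 : Disjoint (A ∪ B) Z := by
    rw [Finset.disjoint_left]
    intro μ h1 h2
    rw [hZ, Finset.mem_image] at h2
    obtain ⟨ν, hν, rfl⟩ := h2
    rw [Finset.mem_union] at h1
    rcases h1 with h | h
    · rw [hA, Finset.mem_image] at h
      obtain ⟨q, hq, h⟩ := h
      rw [Epos, Finset.mem_filter] at hq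
      have e1 : ∀ j, (q.1 j : ℕ) = (q.2 j : ℕ) := by
        intro j
        have f1 := congrArg (fun μ : Fin k ⊕ Fin k →₀ ℕ => μ (Sum.inl j)) h
        have f2 := congrArg (fun μ : Fin k ⊕ Fin k →₀ ℕ => μ (Sum.inr j)) h
        simp only [expo, hdg, Finsupp.equivFunOnFinite_symm_apply_apply, Sum.elim_inl,
          Sum.elim_inr] at f1 f2
        omega
      have h4 := hq.2.2
      simp only [e1] at h4
      omega
    · rw [hB, Finset.mem_image] at h
      obtain ⟨q, hq, h⟩ := h
      rw [Epos, Finset.mem_filter] at hq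
      have e1 : ∀ j, (q.1 j : ℕ) = (q.2 j : ℕ) := by
        intro j
        have f1 := congrArg (fun μ : Fin k ⊕ Fin k →₀ ℕ => μ (Sum.inl j)) h
        have f2 := congrArg (fun μ : Fin k ⊕ Fin k →₀ ℕ => μ (Sum.inr j)) h
        simp only [expo, hdg, Finsupp.equivFunOnFinite_symm_apply_apply, Sum.elim_inl,
          Sum.elim_inr, Prod.fst_swap, Prod.snd_swap] at f1 f2
        omega
      have h4 := hq.2.2
      simp only [e1] at h4
      omega
  have hsub : (A ∪ B) ∪ Z ⊆ T := by
    intro μ hμ
    rw [Finset.mem_union, Finset.mem_union] at hμ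
    rw [hT, Finset.mem_finsuppAntidiag]
    refine ⟨?_, Finset.subset_univ _⟩
    rcases hμ with (h | h) | h
    · rw [hA, Finset.mem_image] at h
      obtain ⟨q, hq, rfl⟩ := h
      rw [Epos, Finset.mem_filter] at hq
      rw [Fintype.sum_sum_type]
      simp only [expo, Finsupp.equivFunOnFinite_symm_apply_apply, Sum.elim_inl, Sum.elim_inr]
      exact hq.2.1
    · rw [hB, Finset.mem_image] at h
      obtain ⟨q, hq, rfl⟩ := h
      rw [Epos, Finset.mem_filter] at hq
      rw [Fintype.sum_sum_type]
      simp only [expo, Finsupp.equivFunOnFinite_symm_apply_apply, Sum.elim_inl, Sum.elim_inr,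
        Prod.fst_swap, Prod.snd_swap]
      rw [add_comm]
      exact hq.2.1
    · rw [hZ, Finset.mem_image] at h
      obtain ⟨ν, hν, rfl⟩ := h
      rw [Finset.mem_finsuppAntidiag] at hν
      rw [Fintype.sum_sum_type]
      simp only [hdg, Finsupp.equivFunOnFinite_symm_apply_apply, Sum.elim_inl, Sum.elim_inr]
      rw [hν.1]
      ring
  have h1 := Finset.card_le_card hsub
  rw [Finset.card_union_of_disjoint hdisj2, Finset.card_union_of_disjoint hdisj, hAc, hBc, hTc,
    hZc] at h1
  omega

/-- In one variable. -/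
theorem card_Epos_one (d D : ℕ) : (Epos 1 d D).card ≤ (d + 1) / 2 := by
  classical
  have h1 : (Epos 1 d D).card ≤ (Finset.Ioc (d / 2) d).card := by
    refine Finset.card_le_card_of_injOn (fun q => (q.1 0 : ℕ)) ?_ ?_
    · intro q hq
      rw [Finset.mem_coe, Epos, Finset.mem_filter] at hq
      have h2 := hq.2.1
      have h3 := hq.2.2
      simp only [Fin.sum_univ_one, Fin.val_zero, pow_zero, mul_one] at h2 h3
      rw [Finset.mem_coe, Finset.mem_Ioc]
      simp only
      omega
    · intro q hq q' hq' h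
      rw [Finset.mem_coe, Epos, Finset.mem_filter] at hq hq'
      have h2 := hq.2.1
      have h3 := hq'.2.1
      simp only [Fin.sum_univ_one] at h2 h3
      simp only at h
      refine Prod.ext ?_ ?_
      · funext j
        rw [Subsingleton.elim j 0]
        exact Fin.ext h
      · funext j
        rw [Subsingleton.elim j 0]
        exact Fin.ext (by omega)
  rw [Nat.card_Ioc] at h1
  omega

theorem cost_le {k d D : ℕ} (hk : 1 ≤ k) (hd : d ≤ D) (D' : ℕ) :
    d * (Epos k d D').card ≤ D * (2 * k + D - 1).choose D / 2 := by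
  have h1 := card_Epos_le k d D'
  have h2 : (2 * k + d - 1).choose d ≤ (2 * k + D - 1).choose D := by
    have e1 : (2 * k + d - 1).choose d = (2 * k + d - 1).choose (2 * k - 1) := by
      rw [← Nat.choose_symm (by omega)]
      congr 1
      omega
    have e2 : (2 * k + D - 1).choose D = (2 * k + D - 1).choose (2 * k - 1) := by
      rw [← Nat.choose_symm (by omega)]
      congr 1
      omega
    rw [e1, e2]
    exact Nat.choose_le_choose _ (by omega)
  rw [Nat.le_div_iff_mul_le (by norm_num)]
  calc d * (Epos k d D').card * 2 = d * (2 * (Epos k d D').card) := by ring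
    _ ≤ D * (2 * k + D - 1).choose D := Nat.mul_le_mul hd (h1.trans h2)

end Pool.Agent.Helper69.QAC
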