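import Pool.Agent.Helper69.QAC.Circ

/-!
# Real forms restricted to complex lines: torus invariance
-/

set_option autoImplicit false

namespace Pool.Agent.Helper69.QAC

open MvPolynomial

/-! ## The form in the variables `z`, `z̄` -/

/-- The generic real vector `Re (∑ z_j w_j)`. -/
noncomputable def lin {k : ℕ} {ι : Type*} (w : Fin k → ι → ℂ) (l : ι) :
    MvPolynomial (Fin k ⊕ Fin k) ℂ :=
  ∑ j, (C (w j l / 2) * X (Sum.inl j) + C (star (w j l) / 2) * X (Sum.inr j))

/-- The form in the variables `z`, `z̄`. -/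
noncomputable def gen {k : ℕ} {ι : Type*} (P : MvPolynomial ι ℝ) (w : Fin k → ι → ℂ) :
    MvPolynomial (Fin k ⊕ Fin k) ℂ :=
  aeval (lin w) P

theorem lin_homogeneous {k : ℕ} {ι : Type*} (w : Fin k → ι → ℂ) (l : ι) :
    (lin w l).IsHomogeneous 1 := by
  refine IsHomogeneous.sum _ _ _ fun j _ => ?_
  exact (isHomogeneous_C_mul_X _ _).add (isHomogeneous_C_mul_X _ _)

theorem gen_homogeneous {k : ℕ} {ι : Type*} {P : MvPolynomial ι ℝ} {d : ℕ}
    (hP : P.IsHomogeneous d) (w : Fin k → ι → ℂ) : (gen P w).IsHomogeneous d := by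
  have := hP.aeval (lin w) (lin_homogeneous w)
  rwa [one_mul] at this

theorem eval_gen {k : ℕ} {ι : Type*} (P : MvPolynomial ι ℝ) (w : Fin k → ι → ℂ)
    (z : Fin k → ℂ) :
    eval (Sum.elim z (fun j => star (z j))) (gen P w) =
      ((eval (fun l => ∑ j, ((z j).re * (w j l).re - (z j).im * (w j l).im)) P : ℝ) : ℂ) := by
  have h1 : ∀ l, eval (Sum.elim z (fun j => star (z j))) (lin w l) =
      ((∑ j, ((z j).re * (w j l).re - (z j).im * (w j l).im) : ℝ) : ℂ) := by
    intro l
    simp only [lin, map_sum, map_add, map_mul, eval_C, eval_X, Sum.elim_inl, Sum.elim_inr]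
    push_cast
    refine Finset.sum_congr rfl fun j _ => ?_
    apply Complex.ext <;> simp <;> ring
  unfold gen
  rw [map_aeval]
  have h2 : ((eval (fun l => ∑ j, ((z j).re * (w j l).re - (z j).im * (w j l).im)) P : ℝ) : ℂ) =
      Complex.ofRealHom (eval (fun l => ∑ j, ((z j).re * (w j l).re - (z j).im * (w j l).im)) P) :=
    rfl
  rw [h2, eval₂_comp]
  simp only [coe_eval₂Hom]
  have h3 : (eval (Sum.elim z (fun j => star (z j)))).comp
      (algebraMap ℝ (MvPolynomial (Fin k ⊕ Fin k) ℂ)) = Complex.ofRealHom := by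
    ext x
    rw [RingHom.comp_apply, MvPolynomial.algebraMap_apply, eval_C]
    rfl
  rw [h3]
  congr 1
  funext l
  rw [h1]
  rfl

/-! ## Scaling -/

theorem coeff_scale {σ : Type*} [Fintype σ] (c : σ → ℂ) (g : MvPolynomial σ ℂ) (μ : σ →₀ ℕ) :
    coeff μ (aeval (fun v => C (c v) * X v : σ → MvPolynomial σ ℂ) g) =
      (∏ v, c v ^ μ v) * coeff μ g := by
  classical
  induction g using MvPolynomial.induction_on' with
  | monomial s a =>
    rw [aeval_monomial]
    have h1 : (s.prod fun v n => (C (c v) * X v : MvPolynomial σ ℂ) ^ n) =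
        C (∏ v, c v ^ s v) * monomial s 1 := by
      rw [Finsupp.prod_fintype _ _ (fun v => pow_zero _)]
      simp only [mul_pow, Finset.prod_mul_distrib]
      rw [monomial_eq, Finsupp.prod_fintype _ _ (fun v => pow_zero _), map_prod]
      simp only [map_pow, C_1, one_mul]
    rw [h1, algebraMap_eq, ← mul_assoc, ← C_mul, C_mul_monomial, coeff_monomial, coeff_monomial]
    split_ifs with h
    · subst h; ring
    · ring
  | add p q hp hq => rw [map_add, coeff_add, hp, hq, coeff_add]; ring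

theorem gen_scale {k : ℕ} {ι : Type*} (P : MvPolynomial ι ℝ) (w : Fin k → ι → ℂ)
    (c : Fin k → ℂ) :
    gen P (fun j l => c j * w j l) =
      aeval (fun v => C (Sum.elim c (fun j => star (c j)) v) * X v :
        Fin k ⊕ Fin k → MvPolynomial (Fin k ⊕ Fin k) ℂ) (gen P w) := by
  unfold gen
  induction P using MvPolynomial.induction_on with
  | C r =>
    rw [aeval_C, aeval_C, MvPolynomial.algebraMap_apply, aeval_C]
    rfl
  | add p q hp hq => rw [map_add, map_add, map_add, hp, hq]
  | mul_X p l hp =>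
    rw [map_mul, map_mul, map_mul, hp]
    congr 1
    rw [aeval_X, aeval_X]
    simp only [lin, map_sum, map_add, map_mul, aeval_C, aeval_X, Sum.elim_inl, Sum.elim_inr]
    refine Finset.sum_congr rfl fun j _ => ?_
    simp only [algebraMap_eq, star_mul', ← mul_assoc, ← C_mul]
    congr 3
    · ring
    · ring

/-! ## Conjugation -/

theorem gen_conj {k : ℕ} {ι : Type*} (P : MvPolynomial ι ℝ) (w : Fin k → ι → ℂ) :
    rename Sum.swap (map (starRingEnd ℂ) (gen P w)) = gen P w := by
  unfold gen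
  induction P using MvPolynomial.induction_on with
  | C r =>
    rw [aeval_C, MvPolynomial.algebraMap_apply, map_C, rename_C]
    congr 1
    exact Complex.conj_ofReal r
  | add p q hp hq => rw [map_add, map_add, map_add, hp, hq]
  | mul_X p l hp =>
    rw [map_mul, map_mul, map_mul, hp]
    congr 1
    rw [aeval_X]
    simp only [lin, map_sum, map_add, map_mul, map_C, map_X, rename_C, rename_X, Sum.swap_inl,
      Sum.swap_inr]
    refine Finset.sum_congr rfl fun j _ => ?_
    rw [add_comm]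
    congr 3
    · rw [map_div₀, map_ofNat]
      simp
    · rw [map_div₀, map_ofNat]
      simp

/-! ## Continuity -/

/-- All coefficients are continuous. -/
def CC {T σ : Type*} [TopologicalSpace T] (g : T → MvPolynomial σ ℂ) : Prop :=
  ∀ μ, Continuous fun t => coeff μ (g t)

theorem CC.const {T σ : Type*} [TopologicalSpace T] (g : MvPolynomial σ ℂ) :
    CC (fun _ : T => g) := fun _ => continuous_const

theorem CC.C' {T σ : Type*} [TopologicalSpace T] {h : T → ℂ} (hh : Continuous h) :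
    CC (fun t => (C (h t) : MvPolynomial σ ℂ)) := by
  classical
  intro μ
  simp only [coeff_C]
  split_ifs
  · exact hh
  · exact continuous_const

theorem CC.add {T σ : Type*} [TopologicalSpace T] {f g : T → MvPolynomial σ ℂ} (hf : CC f)
    (hg : CC g) : CC (fun t => f t + g t) := by
  intro μ
  simp only [coeff_add]
  exact (hf μ).add (hg μ)

theorem CC.mul {T σ : Type*} [TopologicalSpace T] {f g : T → MvPolynomial σ ℂ} (hf : CC f)
    (hg : CC g) : CC (fun t => f t * g t) := by
  classical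
  intro μ
  simp only [coeff_mul]
  exact continuous_finsetSum _ fun x _ => (hf x.1).mul (hg x.2)

theorem CC.sum {T σ J : Type*} [TopologicalSpace T] (s : Finset J) {f : J → T → MvPolynomial σ ℂ}
    (hf : ∀ j, CC (f j)) : CC (fun t => ∑ j ∈ s, f j t) := by
  intro μ
  simp only [coeff_sum]
  exact continuous_finsetSum _ fun j _ => hf j μ

theorem cc_lin {T ι : Type*} [TopologicalSpace T] {k : ℕ} {w : T → Fin k → ι → ℂ}
    (hw : ∀ j l, Continuous fun t => w t j l) (l : ι) : CC (fun t => lin (w t) l) := by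
  unfold lin
  refine CC.sum _ fun j => CC.add (CC.mul (CC.C' ?_) (CC.const _)) (CC.mul (CC.C' ?_) (CC.const _))
  · exact (hw j l).div_const _
  · exact ((hw j l).star).div_const _

theorem cc_gen {T ι : Type*} [TopologicalSpace T] {k : ℕ} {w : T → Fin k → ι → ℂ}
    (hw : ∀ j l, Continuous fun t => w t j l) (P : MvPolynomial ι ℝ) :
    CC (fun t => gen P (w t)) := by
  unfold gen
  induction P using MvPolynomial.induction_on with
  | C r =>
    simp only [aeval_C]
    exact CC.const _
  | add p q hp hq =>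
    simp only [map_add]
    exact hp.add hq
  | mul_X p l hp =>
    simp only [map_mul, aeval_X]
    exact hp.mul (cc_lin hw l)

/-! ## The theorem on real forms -/

/-- The coordinatewise powers. -/
noncomputable def pw {k : ℕ} {ι : Type*} (D : ℕ) (u : ι → ℂ) (j : Fin k) (l : ι) : ℂ :=
  u l ^ ((D + 1) ^ (j : ℕ))

/-- The pairs `(α, β)` of total degree `d` and positive weight. -/
def Epos (k d D : ℕ) : Finset ((Fin k → Fin (D + 1)) × (Fin k → Fin (D + 1))) :=
  Finset.univ.filter fun q => (∑ j, (q.1 j : ℕ) + ∑ j, (q.2 j : ℕ) = d) ∧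
    ∑ j, (q.2 j : ℕ) * (D + 1) ^ (j : ℕ) < ∑ j, (q.1 j : ℕ) * (D + 1) ^ (j : ℕ)

/-- The exponent of a pair. -/
noncomputable def expo {k D : ℕ} (q : (Fin k → Fin (D + 1)) × (Fin k → Fin (D + 1))) :
    Fin k ⊕ Fin k →₀ ℕ :=
  Finsupp.equivFunOnFinite.symm (Sum.elim (fun j => (q.1 j : ℕ)) (fun j => (q.2 j : ℕ)))

theorem coeff_gen_scale {k D : ℕ} {ι : Type*} (P : MvPolynomial ι ℝ) (u : ι → ℂ) {ζ : ℂ}
    (hζ : ‖ζ‖ = 1) (q : (Fin k → Fin (D + 1)) × (Fin k → Fin (D + 1))) :
    coeff (expo q) (gen P (pw D (ζ • u))) =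
      ζ ^ ((∑ j, (q.1 j : ℕ) * (D + 1) ^ (j : ℕ) : ℕ) - (∑ j, (q.2 j : ℕ) * (D + 1) ^ (j : ℕ) : ℕ) : ℤ)
        * coeff (expo q) (gen P (pw D u)) := by
  have hζ0 : ζ ≠ 0 := by
    intro h
    rw [h] at hζ
    simp at hζ
  have hst : star ζ = ζ⁻¹ := by
    rw [Complex.inv_eq_conj hζ]
    rfl
  have h1 : (pw D (ζ • u) : Fin k → ι → ℂ) =
      fun (j : Fin k) l => ζ ^ ((D + 1) ^ (j : ℕ)) * (pw D u : Fin k → ι → ℂ) j l := by
    funext j l
    simp only [pw, Pi.smul_apply, smul_eq_mul, mul_pow]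
  rw [h1, gen_scale, coeff_scale]
  congr 1
  rw [Fintype.prod_sum_type]
  simp only [expo, Finsupp.equivFunOnFinite_symm_apply_apply, Sum.elim_inl, Sum.elim_inr, star_pow,
    hst]
  rw [zpow_sub₀ hζ0, zpow_natCast, zpow_natCast, ← Finset.prod_pow_eq_pow_sum,
    ← Finset.prod_pow_eq_pow_sum, div_eq_mul_inv, ← Finset.prod_inv_distrib]
  congr 1
  · refine Finset.prod_congr rfl fun j _ => ?_
    rw [← pow_mul, mul_comm]
  · refine Finset.prod_congr rfl fun j _ => ?_
    rw [← pow_mul, mul_comm, inv_pow]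

theorem support_diag {k D d : ℕ} {ι : Type*} {P : MvPolynomial ι ℝ} (hd : d ≤ D)
    (hP : P.IsHomogeneous d) {w : Fin k → ι → ℂ}
    (hz : ∀ q ∈ Epos k d D, coeff (expo q) (gen P w) = 0) {μ : Fin k ⊕ Fin k →₀ ℕ}
    (hμ : μ ∈ (gen P w).support) :
    (∀ j, μ (Sum.inr j) = μ (Sum.inl j)) ∧ d = 2 * ∑ j, μ (Sum.inl j) := by
  classical
  have hc : coeff μ (gen P w) ≠ 0 := mem_support_iff.1 hμ
  have hdeg : ∑ v, μ v = d := by
    by_contra h
    exact hc ((gen_homogeneous hP w).coeff_eq_zero (by rwa [Finsupp.degree_eq_sum]))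
  have hle : ∀ v, μ v < D + 1 := by
    intro v
    have h1 : μ v ≤ ∑ v, μ v :=
      Finset.single_le_sum (f := fun v => μ v) (fun _ _ => Nat.zero_le _) (Finset.mem_univ v)
    omega
  rw [Fintype.sum_sum_type] at hdeg
  set q : (Fin k → Fin (D + 1)) × (Fin k → Fin (D + 1)) :=
    (fun j => ⟨μ (Sum.inl j), hle _⟩, fun j => ⟨μ (Sum.inr j), hle _⟩) with hq
  have hqμ : expo q = μ := by
    ext v
    rcases v with j | j <;> simp [expo, hq]
  have hq' : Finsupp.mapDomain Sum.swap (expo q.swap) = μ := by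
    ext v
    have h1 : (Finsupp.mapDomain (Equiv.sumComm (Fin k) (Fin k)) (expo q.swap)) v = μ v := by
      rw [Finsupp.mapDomain_equiv_apply]
      rcases v with j | j <;> simp [expo, hq]
    exact h1
  have key : (∀ j, μ (Sum.inr j) = μ (Sum.inl j)) := by
    rcases lt_trichotomy (∑ j, (q.2 j : ℕ) * (D + 1) ^ (j : ℕ))
      (∑ j, (q.1 j : ℕ) * (D + 1) ^ (j : ℕ)) with h | h | h
    · exfalso
      apply hc
      rw [← hqμ]
      refine hz q ?_
      rw [Epos, Finset.mem_filter]
      exact ⟨Finset.mem_univ _, hdeg, h⟩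
    · have h1 : finFunctionFinEquiv q.2 = finFunctionFinEquiv q.1 := by
        apply Fin.ext
        rw [finFunctionFinEquiv_apply, finFunctionFinEquiv_apply]
        exact h
      have h2 := finFunctionFinEquiv.injective h1
      intro j
      have h3 := congrFun h2 j
      have h4 := congrArg (fun x : Fin (D + 1) => (x : ℕ)) h3
      exact h4
    · exfalso
      apply hc
      have h1 : coeff (expo q.swap) (gen P w) = 0 := by
        refine hz _ ?_
        rw [Epos, Finset.mem_filter]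
        refine ⟨Finset.mem_univ _, ?_, h⟩
        rw [add_comm]
        exact hdeg
      rw [← gen_conj, ← hq', coeff_rename_mapDomain _ Sum.swap_leftInverse.injective, coeff_map, h1,
        map_zero]
  refine ⟨key, ?_⟩
  simp only [key] at hdeg
  omega

theorem torus_real {ι κ : Type*} [Fintype ι] [Fintype κ] (k D : ℕ) (P : κ → MvPolynomial ι ℝ)
    (d : κ → ℕ) (hd : ∀ h, d h ≤ D) (hP : ∀ h, (P h).IsHomogeneous (d h))
    (hcard : ∑ h, (Epos k (d h) D).card < Fintype.card ι) :
    ∃ (w : Fin k → ι → ℂ) (Q : κ → MvPolynomial (Fin k) ℝ), (∀ j, w j ≠ 0) ∧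
      (∀ h, Q h = 0 ∨ 2 ∣ d h ∧ (Q h).IsHomogeneous (d h / 2)) ∧
      ∀ h (a b : Fin k → ℝ),
        eval (fun l => ∑ j, (a j * (w j l).re - b j * (w j l).im)) (P h) =
          eval (fun j => a j ^ 2 + b j ^ 2) (Q h) := by
  classical
  obtain ⟨u, hu, hz⟩ := bu_circle (ι := ι) (κ := Σ h, {q // q ∈ Epos k (d h) D})
    (by
      rw [Fintype.card_sigma]
      simpa using hcard)
    (fun x u => coeff (expo x.2.1) (gen (P x.1) (pw D u)))
    (fun x => ((∑ j, (x.2.1.1 j : ℕ) * (D + 1) ^ (j : ℕ) : ℕ) -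
      (∑ j, (x.2.1.2 j : ℕ) * (D + 1) ^ (j : ℕ) : ℕ) : ℤ))
    (by
      rintro ⟨h, q, hq⟩
      rw [Epos, Finset.mem_filter] at hq
      have := hq.2.2
      simp only
      omega)
    (by
      rintro ⟨h, q, hq⟩
      refine cc_gen (fun j l => ?_) (P h) (expo q)
      exact (continuous_apply l).pow _)
    (by
      rintro ⟨h, q, hq⟩ ζ u hζ
      exact coeff_gen_scale (P h) u hζ q)
  obtain ⟨l₀, hl₀⟩ := Function.ne_iff.1 hu
  set w : Fin k → ι → ℂ := pw D u with hw
  have hz' : ∀ h, ∀ q ∈ Epos k (d h) D, coeff (expo q) (gen (P h) w) = 0 :=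
    fun h q hq => hz ⟨h, q, hq⟩
  refine ⟨w, fun h => ∑ μ ∈ (gen (P h) w).support,
    monomial (Finsupp.equivFunOnFinite.symm fun j => μ (Sum.inl j)) (coeff μ (gen (P h) w)).re,
    ?_, ?_, ?_⟩
  · intro j h
    have := congrFun h l₀
    simp only [hw, pw, Pi.zero_apply] at this
    exact hl₀ (eq_zero_of_pow_eq_zero this)
  · intro h
    by_cases hdiv : 2 ∣ d h
    · right
      refine ⟨hdiv, IsHomogeneous.sum _ _ _ fun μ hμ => isHomogeneous_monomial _ ?_⟩
      rw [Finsupp.degree_eq_sum]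
      have := (support_diag (hd h) (hP h) (hz' h) hμ).2
      simp only [Finsupp.equivFunOnFinite_symm_apply_apply]
      omega
    · left
      refine Finset.sum_eq_zero fun μ hμ => ?_
      exact absurd ⟨_, (support_diag (hd h) (hP h) (hz' h) hμ).2⟩ hdiv
  · intro h a b
    have h1 := eval_gen (P h) w (fun j => (a j : ℂ) + b j * Complex.I)
    have h2 : ∀ j, ((a j : ℂ) + b j * Complex.I).re = a j := fun j => by simp
    have h3 : ∀ j, ((a j : ℂ) + b j * Complex.I).im = b j := fun j => by simp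
    simp only [h2, h3] at h1
    rw [map_sum]
    have h4 := congrArg Complex.re h1
    rw [Complex.ofReal_re, eval_eq'] at h4
    rw [← h4, Complex.re_sum]
    refine Finset.sum_congr rfl fun μ hμ => ?_
    have h5 : ∏ v, (Sum.elim (fun j => (a j : ℂ) + b j * Complex.I)
        (fun j => star ((a j : ℂ) + b j * Complex.I)) v) ^ μ v =
        ((∏ j, (a j ^ 2 + b j ^ 2) ^ μ (Sum.inl j) : ℝ) : ℂ) := by
      rw [Fintype.prod_sum_type, ← Finset.prod_mul_distrib, Complex.ofReal_prod]
      refine Finset.prod_congr rfl fun j _ => ?_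
      rw [(support_diag (hd h) (hP h) (hz' h) hμ).1 j, ← mul_pow, Complex.ofReal_pow]
      congr 1
      simp only [Sum.elim_inl, Sum.elim_inr]
      exact (Complex.mul_conj _).trans (by rw [Complex.normSq_add_mul_I])
    rw [h5, Complex.re_mul_ofReal, eval_monomial, Finsupp.prod_fintype _ _ (fun v => pow_zero _)]
    simp only [Finsupp.equivFunOnFinite_symm_apply_apply]

end Pool.Agent.Helper69.QAC
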