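import Pool.Agent.Helper69.QAC.Field

/-!
# Sums of two squares in a nonreal function field of one real variable
-/

set_option autoImplicit false

namespace Pool.Agent.Helper69.QAC

variable {K : Type*} [Field K] [Algebra ℝ K]

theorem cont_two {T : Type*} [TopologicalSpace T] {m : ℕ} (π : K →ₗ[ℝ] ℝ) (a : K) (b : Fin m → K)
    {x y : Fin m → T → ℝ} (hx : ∀ l, Continuous (x l)) (hy : ∀ l, Continuous (y l)) :
    Continuous fun t => π (a * (∑ l, x l t • b l) * (∑ l, y l t • b l)) := by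
  have h1 : ∀ t, π (a * (∑ l, x l t • b l) * (∑ l, y l t • b l)) =
      ∑ l, ∑ l', x l t * y l' t * π (a * b l * b l') := by
    intro t
    rw [Finset.mul_sum Finset.univ _ a, Finset.sum_mul_sum, map_sum]
    refine Finset.sum_congr rfl fun l _ => ?_
    rw [map_sum]
    refine Finset.sum_congr rfl fun l' _ => ?_
    have h2 : a * x l t • b l * y l' t • b l' = (x l t * y l' t) • (a * b l * b l') := by
      simp only [Algebra.smul_def, map_mul]
      ring
    rw [h2, map_smul, smul_eq_mul]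
  simp only [h1]
  exact continuous_finsetSum _ fun l _ => continuous_finsetSum _ fun l' _ =>
    ((hx l).mul (hy l')).mul continuous_const

/-- A ternary quadratic form over `K(i)` is isotropic. -/
theorem pair_zero (hFG : (⊤ : IntermediateField ℝ K).FG) {t : K}
    (ht : IsTranscendenceBasis ℝ (fun _ : Unit => t)) (α β c : K) :
    ∃ Z Z' U U' V V' : K, ¬ (Z = 0 ∧ Z' = 0 ∧ U = 0 ∧ U' = 0 ∧ V = 0 ∧ V' = 0) ∧
      α * (Z ^ 2 - Z' ^ 2) - 2 * β * Z * Z' - (U ^ 2 - U' ^ 2) - c * (V ^ 2 - V' ^ 2) = 0 ∧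
      β * (Z ^ 2 - Z' ^ 2) + 2 * α * Z * Z' - 2 * U * U' - 2 * c * V * V' = 0 := by
  classical
  obtain ⟨μ, S, hμ, hS, hgr⟩ := growth hFG ht
  set A : Submodule ℝ K := Submodule.span ℝ {α, β, 1, c} with hA
  have hAfg : A.FG := Submodule.fg_span (by simp)
  obtain ⟨c', hc'⟩ := hgr A hAfg 2
  set m := μ * (c' + 1) with hm
  have hSfin : Module.Finite ℝ ↥(S c') := Module.Finite.iff_fg.2 (hS c').1
  set b : Module.Basis (Fin m) ℝ ↥(S c') := Module.finBasisOfFinrankEq ℝ _ (hS c').2 with hb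
  set W : Submodule ℝ K := A * S c' ^ 2 with hW
  have hWfin : Module.Finite ℝ ↥W := Module.Finite.iff_fg.2 (hAfg.mul ((hS c').1.pow _))
  set g : Module.Basis (Fin (Module.finrank ℝ ↥W)) ℝ ↥W := Module.finBasis ℝ ↥W with hg
  have hext : ∀ j, ∃ π : K →ₗ[ℝ] ℝ, π.comp W.subtype = g.coord j := fun j =>
    (g.coord j).exists_extend
  choose π hπ using hext
  set R : Fin 3 → (Fin 3 × Fin m → ℂ) → K := fun s u => ∑ l, (u (s, l)).re • ((b l : ↥(S c')) : K)
    with hR
  set J : Fin 3 → (Fin 3 × Fin m → ℂ) → K := fun s u => ∑ l, (u (s, l)).im • ((b l : ↥(S c')) : K)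
    with hJ
  have hRJ : ∀ s u, R s u ∈ S c' ∧ J s u ∈ S c' := fun s u =>
    ⟨Submodule.sum_mem _ fun l _ => Submodule.smul_mem _ _ (b l).2,
      Submodule.sum_mem _ fun l _ => Submodule.smul_mem _ _ (b l).2⟩
  set F : (Fin 3 × Fin m → ℂ) → K := fun u => α * R 0 u * R 0 u - α * J 0 u * J 0 u
    - 2 * (β * R 0 u * J 0 u) - (1 * R 1 u * R 1 u - 1 * J 1 u * J 1 u)
    - (c * R 2 u * R 2 u - c * J 2 u * J 2 u) with hF
  set G : (Fin 3 × Fin m → ℂ) → K := fun u => β * R 0 u * R 0 u - β * J 0 u * J 0 u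
    + 2 * (α * R 0 u * J 0 u) - 2 * (1 * R 1 u * J 1 u) - 2 * (c * R 2 u * J 2 u) with hG
  have hmem : ∀ a ∈ A, ∀ x ∈ S c', ∀ y ∈ S c', a * x * y ∈ W := by
    intro a ha x hx y hy
    rw [mul_assoc, hW, pow_two]
    exact Submodule.mul_mem_mul ha (Submodule.mul_mem_mul hx hy)
  have h2mem : ∀ x ∈ W, 2 * x ∈ W := fun x hx => by
    rw [two_mul]; exact Submodule.add_mem _ hx hx
  have hα : α ∈ A := Submodule.subset_span (by simp)
  have hβ : β ∈ A := Submodule.subset_span (by simp)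
  have h1A : (1 : K) ∈ A := Submodule.subset_span (by simp)
  have hcA : c ∈ A := Submodule.subset_span (by simp)
  have hFW : ∀ u, F u ∈ W := fun u =>
    Submodule.sub_mem _ (Submodule.sub_mem _ (Submodule.sub_mem _ (Submodule.sub_mem _
      (hmem _ hα _ (hRJ 0 u).1 _ (hRJ 0 u).1) (hmem _ hα _ (hRJ 0 u).2 _ (hRJ 0 u).2))
      (h2mem _ (hmem _ hβ _ (hRJ 0 u).1 _ (hRJ 0 u).2)))
      (Submodule.sub_mem _ (hmem _ h1A _ (hRJ 1 u).1 _ (hRJ 1 u).1)
        (hmem _ h1A _ (hRJ 1 u).2 _ (hRJ 1 u).2)))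
      (Submodule.sub_mem _ (hmem _ hcA _ (hRJ 2 u).1 _ (hRJ 2 u).1)
        (hmem _ hcA _ (hRJ 2 u).2 _ (hRJ 2 u).2))
  have hGW : ∀ u, G u ∈ W := fun u =>
    Submodule.sub_mem _ (Submodule.sub_mem _ (Submodule.add_mem _ (Submodule.sub_mem _
      (hmem _ hβ _ (hRJ 0 u).1 _ (hRJ 0 u).1) (hmem _ hβ _ (hRJ 0 u).2 _ (hRJ 0 u).2))
      (h2mem _ (hmem _ hα _ (hRJ 0 u).1 _ (hRJ 0 u).2)))
      (h2mem _ (hmem _ h1A _ (hRJ 1 u).1 _ (hRJ 1 u).2)))
      (h2mem _ (hmem _ hcA _ (hRJ 2 u).1 _ (hRJ 2 u).2))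
  have hre : ∀ x : Fin 3 × Fin m, Continuous fun u : Fin 3 × Fin m → ℂ => (u x).re := fun x =>
    Complex.continuous_re.comp (continuous_apply x)
  have him : ∀ x : Fin 3 × Fin m, Continuous fun u : Fin 3 × Fin m → ℂ => (u x).im := fun x =>
    Complex.continuous_im.comp (continuous_apply x)
  have htwo : ∀ (ρ : K →ₗ[ℝ] ℝ) (x : K), ρ (2 * x) = 2 * ρ x := by
    intro ρ x
    rw [two_mul, map_add, two_mul]
  have hFc : ∀ j, Continuous fun u => π j (F u) := by
    intro j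
    simp only [hF, map_sub, htwo]
    exact (((((cont_two (π j) α _ (fun l => hre (0, l)) (fun l => hre (0, l))).sub
      (cont_two (π j) α _ (fun l => him (0, l)) (fun l => him (0, l)))).sub
      (continuous_const.mul (cont_two (π j) β _ (fun l => hre (0, l)) (fun l => him (0, l))))).sub
      ((cont_two (π j) 1 _ (fun l => hre (1, l)) (fun l => hre (1, l))).sub
        (cont_two (π j) 1 _ (fun l => him (1, l)) (fun l => him (1, l))))).sub
      ((cont_two (π j) c _ (fun l => hre (2, l)) (fun l => hre (2, l))).sub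
        (cont_two (π j) c _ (fun l => him (2, l)) (fun l => him (2, l)))))
  have hGc : ∀ j, Continuous fun u => π j (G u) := by
    intro j
    simp only [hG, map_sub, map_add, htwo]
    exact (((((cont_two (π j) β _ (fun l => hre (0, l)) (fun l => hre (0, l))).sub
      (cont_two (π j) β _ (fun l => him (0, l)) (fun l => him (0, l)))).add
      (continuous_const.mul (cont_two (π j) α _ (fun l => hre (0, l)) (fun l => him (0, l))))).sub
      (continuous_const.mul (cont_two (π j) 1 _ (fun l => hre (1, l)) (fun l => him (1, l))))).sub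
      (continuous_const.mul (cont_two (π j) c _ (fun l => hre (2, l)) (fun l => him (2, l)))))
  have hRr : ∀ s (ζ : ℂ) u, R s (ζ • u) = algebraMap ℝ K ζ.re * R s u - algebraMap ℝ K ζ.im * J s u := by
    intro s ζ u
    simp only [hR, hJ, Pi.smul_apply, smul_eq_mul, Complex.mul_re, Finset.mul_sum]
    rw [← Finset.sum_sub_distrib]
    refine Finset.sum_congr rfl fun l _ => ?_
    simp only [Algebra.smul_def, map_sub, map_mul]
    ring
  have hJr : ∀ s (ζ : ℂ) u, J s (ζ • u) = algebraMap ℝ K ζ.re * J s u + algebraMap ℝ K ζ.im * R s u := by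
    intro s ζ u
    simp only [hR, hJ, Pi.smul_apply, smul_eq_mul, Complex.mul_im, Finset.mul_sum]
    rw [← Finset.sum_add_distrib]
    refine Finset.sum_congr rfl fun l _ => ?_
    simp only [Algebra.smul_def, map_add, map_mul]
    ring
  have hFr : ∀ (ζ : ℂ) u, F (ζ • u) = (ζ.re ^ 2 - ζ.im ^ 2) • F u - (2 * ζ.re * ζ.im) • G u := by
    intro ζ u
    simp only [hF, hG, hRr, hJr]
    simp only [Algebra.smul_def, map_sub, map_mul, map_pow, map_ofNat]
    ring
  have hGr : ∀ (ζ : ℂ) u, G (ζ • u) = (2 * ζ.re * ζ.im) • F u + (ζ.re ^ 2 - ζ.im ^ 2) • G u := by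
    intro ζ u
    simp only [hF, hG, hRr, hJr]
    simp only [Algebra.smul_def, map_sub, map_mul, map_pow, map_ofNat]
    ring
  obtain ⟨u, hu, hz⟩ := bu_circle (ι := Fin 3 × Fin m) (κ := Fin (Module.finrank ℝ ↥W))
    (by
      simp only [Fintype.card_fin, Fintype.card_prod]
      calc Module.finrank ℝ ↥W ≤ μ * (2 * c' + c') := hc' c'
        _ < μ * (3 * (c' + 1)) := Nat.mul_lt_mul_of_pos_left (by omega) hμ
        _ = 3 * m := by rw [hm]; ring)
    (fun j u => ⟨π j (F u), π j (G u)⟩) (fun _ => 2) (fun _ => by norm_num)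
    (fun j => by
      have h1 : (fun u => (⟨π j (F u), π j (G u)⟩ : ℂ)) =
          fun u => ((π j (F u) : ℝ) : ℂ) + ((π j (G u) : ℝ) : ℂ) * Complex.I := by
        funext u
        apply Complex.ext <;> simp
      rw [h1]
      exact (Complex.continuous_ofReal.comp (hFc j)).add
        ((Complex.continuous_ofReal.comp (hGc j)).mul continuous_const))
    (fun j ζ u _ => by
      rw [hFr, hGr]
      simp only [map_sub, map_add, map_smul, smul_eq_mul]
      have h2 : ζ ^ (2 : ℤ) = ζ * ζ := by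
        rw [show (2 : ℤ) = ((2 : ℕ) : ℤ) from rfl, zpow_natCast, pow_two]
      rw [h2]
      apply Complex.ext
      · simp only [Complex.mul_re, Complex.mul_im]; ring
      · simp only [Complex.mul_re, Complex.mul_im]; ring)
  have hzero : ∀ x ∈ W, (∀ j, π j x = 0) → x = 0 := by
    intro x hx h
    have h1 : g.repr ⟨x, hx⟩ = 0 := by
      ext j
      have h2 := congrArg (fun f => f ⟨x, hx⟩) (hπ j)
      simp only [LinearMap.comp_apply, Submodule.subtype_apply, Module.Basis.coord_apply] at h2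
      rw [← h2, h j]
      rfl
    have h3 := (LinearEquiv.map_eq_zero_iff g.repr).1 h1
    exact congrArg Subtype.val h3
  have hF0 : F u = 0 := hzero _ (hFW u) fun j => congrArg Complex.re (hz j)
  have hG0 : G u = 0 := hzero _ (hGW u) fun j => congrArg Complex.im (hz j)
  have hli : LinearIndependent ℝ fun l => ((b l : ↥(S c')) : K) :=
    b.linearIndependent.map' (S c').subtype (Submodule.ker_subtype _)
  rw [Fintype.linearIndependent_iff] at hli
  refine ⟨R 0 u, J 0 u, R 1 u, J 1 u, R 2 u, J 2 u, ?_, ?_, ?_⟩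
  · rintro ⟨h1, h2, h3, h4, h5, h6⟩
    apply hu
    funext ⟨s, l⟩
    fin_cases s
    · exact Complex.ext (hli _ h1 l) (hli _ h2 l)
    · exact Complex.ext (hli _ h3 l) (hli _ h4 l)
    · exact Complex.ext (hli _ h5 l) (hli _ h6 l)
  · rw [← hF0]; simp only [hF]; ring
  · rw [← hG0]; simp only [hG]; ring

theorem char_ne_two (K : Type*) [Field K] [Algebra ℝ K] : (2 : K) ≠ 0 := by
  have : CharZero K := charZero_of_injective_algebraMap (algebraMap ℝ K).injective
  exact two_ne_zero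

theorem sq_sum_ne {K : Type*} [Field K] (hi : ¬ ∃ x : K, x ^ 2 = -1) {a b : K}
    (h : a ^ 2 + b ^ 2 = 0) : a = 0 ∧ b = 0 := by
  have hb : b = 0 := by
    by_contra hb
    apply hi
    refine ⟨a / b, ?_⟩
    rw [div_pow, div_eq_iff (pow_ne_zero 2 hb)]
    linear_combination h
  subst hb
  refine ⟨?_, rfl⟩
  have : a ^ 2 = 0 := by linear_combination h
  exact pow_eq_zero_iff (two_ne_zero) |>.1 this

/-- Norms from `K(i)` are represented by `X ^ 2 + c Y ^ 2`. -/
theorem norm_repr (hFG : (⊤ : IntermediateField ℝ K).FG) {t : K}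
    (ht : IsTranscendenceBasis ℝ (fun _ : Unit => t)) (hi : ¬ ∃ x : K, x ^ 2 = -1) (α β : K)
    {c : K} (hc : c ≠ 0) : ∃ X Y : K, α ^ 2 + β ^ 2 = X ^ 2 + c * Y ^ 2 := by
  have h2 := char_ne_two K
  by_cases hneg : ∃ e : K, -c = e ^ 2
  · obtain ⟨e, he⟩ := hneg
    have he0 : e ≠ 0 := by
      rintro rfl
      apply hc
      linear_combination -he
    refine ⟨(α ^ 2 + β ^ 2 + 1) / 2, (α ^ 2 + β ^ 2 - 1) / (2 * e), ?_⟩
    have hce : c = -e ^ 2 := by linear_combination -he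
    rw [hce]
    field_simp
    ring
  by_cases hpos : ∃ e : K, c = e ^ 2
  · obtain ⟨e, he⟩ := hpos
    have he0 : e ≠ 0 := by
      rintro rfl
      apply hc
      rw [he]
      ring
    refine ⟨α, β / e, ?_⟩
    rw [he]
    field_simp
  obtain ⟨Z, Z', U, U', V, V', hne, h1, h3⟩ := pair_zero hFG ht α β c
  have key : (α ^ 2 + β ^ 2) * (Z ^ 2 + Z' ^ 2) ^ 2 =
      ((U ^ 2 + U' ^ 2) - c * (V ^ 2 + V' ^ 2)) ^ 2 + c * (2 * (U * V + U' * V')) ^ 2 := by
    have e1 : α * (Z ^ 2 - Z' ^ 2) - 2 * β * Z * Z' = (U ^ 2 - U' ^ 2) + c * (V ^ 2 - V' ^ 2) := by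
      linear_combination h1
    have e2 : β * (Z ^ 2 - Z' ^ 2) + 2 * α * Z * Z' = 2 * U * U' + 2 * c * V * V' := by
      linear_combination h3
    calc (α ^ 2 + β ^ 2) * (Z ^ 2 + Z' ^ 2) ^ 2
        = (α * (Z ^ 2 - Z' ^ 2) - 2 * β * Z * Z') ^ 2 +
          (β * (Z ^ 2 - Z' ^ 2) + 2 * α * Z * Z') ^ 2 := by ring
      _ = _ := by rw [e1, e2]; ring
  by_cases hZ : Z ^ 2 + Z' ^ 2 = 0
  · exfalso
    obtain ⟨hZ1, hZ2⟩ := sq_sum_ne hi hZ
    subst hZ1 hZ2
    have h4 : ((U ^ 2 + U' ^ 2) - c * (V ^ 2 + V' ^ 2)) ^ 2 + c * (2 * (U * V + U' * V')) ^ 2 = 0 := by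
      rw [← key]; ring
    by_cases hT : U * V + U' * V' = 0
    · have hNN : (U ^ 2 + U' ^ 2) - c * (V ^ 2 + V' ^ 2) = 0 := by
        rw [hT] at h4
        have : ((U ^ 2 + U' ^ 2) - c * (V ^ 2 + V' ^ 2)) ^ 2 = 0 := by linear_combination h4
        exact pow_eq_zero_iff (two_ne_zero) |>.1 this
      have hV : ¬ (V ^ 2 + V' ^ 2 = 0) := by
        intro hV
        obtain ⟨hV1, hV2⟩ := sq_sum_ne hi hV
        subst hV1 hV2
        have hU : U ^ 2 + U' ^ 2 = 0 := by linear_combination hNN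
        obtain ⟨hU1, hU2⟩ := sq_sum_ne hi hU
        subst hU1 hU2
        exact hne ⟨rfl, rfl, rfl, rfl, rfl, rfl⟩
      apply hpos
      -- `U = - l V'`, `U' = l V`
      set N := V ^ 2 + V' ^ 2 with hN
      set l := (U' * V - U * V') / N with hl
      have hlN : l * N = U' * V - U * V' := by rw [hl]; field_simp
      have hU : U * N = - (l * N) * V' := by
        rw [hlN, hN]
        linear_combination V * hT
      have hU' : U' * N = (l * N) * V := by
        rw [hlN, hN]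
        linear_combination V' * hT
      have hU1 : U = - l * V' := mul_right_cancel₀ hV (by linear_combination hU)
      have hU2 : U' = l * V := mul_right_cancel₀ hV (by linear_combination hU')
      refine ⟨l, ?_⟩
      rw [hU1, hU2] at hNN
      have : (l ^ 2 - c) * N = 0 := by rw [hN]; linear_combination hNN
      rcases mul_eq_zero.1 this with h | h
      · linear_combination -h
      · exact absurd h hV
    · apply hneg
      refine ⟨((U ^ 2 + U' ^ 2) - c * (V ^ 2 + V' ^ 2)) / (2 * (U * V + U' * V')), ?_⟩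
      have hT2 : 2 * (U * V + U' * V') ≠ 0 := mul_ne_zero h2 hT
      rw [div_pow, eq_div_iff (pow_ne_zero 2 hT2)]
      linear_combination -h4
  · refine ⟨((U ^ 2 + U' ^ 2) - c * (V ^ 2 + V' ^ 2)) / (Z ^ 2 + Z' ^ 2),
      (2 * (U * V + U' * V')) / (Z ^ 2 + Z' ^ 2), ?_⟩
    rw [div_pow, div_pow]
    field_simp
    linear_combination key

theorem three_squares (hFG : (⊤ : IntermediateField ℝ K).FG) {t : K}
    (ht : IsTranscendenceBasis ℝ (fun _ : Unit => t)) (hi : ¬ ∃ x : K, x ^ 2 = -1) (a α β : K) :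
    ∃ x y : K, a ^ 2 + (α ^ 2 + β ^ 2) = x ^ 2 + y ^ 2 := by
  set s := a ^ 2 + (α ^ 2 + β ^ 2) with hs
  by_cases hs0 : s = 0
  · exact ⟨0, 0, by rw [hs0]; ring⟩
  obtain ⟨X, Y, hXY⟩ := norm_repr hFG ht hi α β (c := -s) (neg_ne_zero.2 hs0)
  have key : s * (a * Y + X) ^ 2 = (a * X + s * Y) ^ 2 + (α ^ 2 + β ^ 2) ^ 2 := by
    have e1 : α ^ 2 + β ^ 2 = s - a ^ 2 := by rw [hs]; ring
    have e2 : (α ^ 2 + β ^ 2) ^ 2 = (s - a ^ 2) * (X ^ 2 + -s * Y ^ 2) := by
      rw [← hXY, ← e1]; ring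
    rw [e2]
    ring
  by_cases h0 : a * Y + X = 0
  · have h1 : (a * X + s * Y) ^ 2 + (α ^ 2 + β ^ 2) ^ 2 = 0 := by
      rw [← key, h0]; ring
    have h3 := (sq_sum_ne hi h1).2
    exact ⟨a, 0, by rw [hs, h3]; ring⟩
  · refine ⟨(a * X + s * Y) / (a * Y + X), (α ^ 2 + β ^ 2) / (a * Y + X), ?_⟩
    rw [div_pow, div_pow]
    field_simp
    linear_combination key

theorem isSumSq_two (hFG : (⊤ : IntermediateField ℝ K).FG) {t : K}
    (ht : IsTranscendenceBasis ℝ (fun _ : Unit => t)) (hi : ¬ ∃ x : K, x ^ 2 = -1) {s : K}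
    (hs : IsSumSq s) : ∃ x y : K, s = x ^ 2 + y ^ 2 := by
  induction hs with
  | zero => exact ⟨0, 0, by ring⟩
  | sq_add a _ ih =>
    obtain ⟨x, y, rfl⟩ := ih
    obtain ⟨x', y', h⟩ := three_squares hFG ht hi a x y
    exact ⟨x', y', by rw [← h]; ring⟩

/-- **Witt's theorem**: in a nonreal function field of one variable over `ℝ` every element is a sum
of two squares. -/
theorem two_squares (hFG : (⊤ : IntermediateField ℝ K).FG) {t : K}
    (ht : IsTranscendenceBasis ℝ (fun _ : Unit => t)) (hs : IsSumSq (-1 : K)) (c : K) :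
    ∃ x y : K, c = x ^ 2 + y ^ 2 := by
  have h2 := char_ne_two K
  by_cases hi : ∃ x : K, x ^ 2 = -1
  · obtain ⟨e, he⟩ := hi
    refine ⟨(c + 1) / 2, e * (c - 1) / 2, ?_⟩
    rw [div_pow, div_pow, mul_pow, he]
    field_simp
    ring
  by_cases hc : c = 0
  · exact ⟨0, 0, by rw [hc]; ring⟩
  obtain ⟨α, β, hαβ⟩ := isSumSq_two hFG ht hi hs
  obtain ⟨X, Y, hXY⟩ := norm_repr hFG ht hi α β hc
  have hY : Y ≠ 0 := by
    rintro rfl
    apply hi
    refine ⟨X, ?_⟩
    linear_combination -hXY - hαβ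
  refine ⟨(α - β * X) / Y, (α * X + β) / Y, ?_⟩
  rw [div_pow, div_pow]
  field_simp
  linear_combination X ^ 2 * hαβ - hXY

end Pool.Agent.Helper69.QAC
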